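import Mathlib

/-!
# Sequences which are homogeneous for several trees and orders: lists

A tree on `V` is given by an ultrametric `d : V → V → ℕ`.
-/

set_option autoImplicit false

namespace Pool.Agent.N440.Trees

open Finset
open scoped List

variable {V : Type*}

/-- `d` is an ultrametric (a rooted tree with leaves `V`). -/
structure IsTree (d : V → V → ℕ) : Prop where
  self : ∀ x, d x x = 0
  pos : ∀ x y, x ≠ y → 0 < d x y
  symm : ∀ x y, d x y = d y x
  ultra : ∀ x y z, d x z ≤ max (d x y) (d y z)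

/-- The tree is binary: no three points with equal distances. -/
def IsBin (d : V → V → ℕ) : Prop :=
  ∀ x y z, x ≠ y → y ≠ z → x ≠ z → ¬ (d x y = d y z ∧ d x y = d x z)

lemma IsTree.eq_of_lt {d : V → V → ℕ} (h : IsTree d) {x y z : V} (hyz : d y z < d x y) :
    d x z = d x y := by
  have h1 := h.ultra x y z
  have h2 := h.ultra x z y
  rw [h.symm z y] at h2
  omega

lemma IsTree.lt_of_eq {d : V → V → ℕ} (h : IsTree d) (hb : IsBin d) {x y z : V} (hxy : x ≠ y)
    (hxz : x ≠ z) (he : d x y = d x z) : d y z < d x y := by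
  by_cases hyz : y = z
  · subst hyz
    rw [h.self]
    exact h.pos _ _ hxy
  · have h1 := h.ultra y x z
    rw [h.symm y x] at h1
    have h2 := hb x y z hxy hyz hxz
    by_contra hc
    exact h2 ⟨by omega, he⟩

/-- Forward: every point sees all later points in one cell. -/
def Fwd (d : V → V → ℕ) : List V → Prop
  | [] => True
  | x :: l => (∀ y ∈ l, ∀ z ∈ l, d y z < d x y) ∧ Fwd d l

/-- All distances are equal. -/
def Star (d : V → V → ℕ) (l : List V) : Prop :=
  ∃ h, l.Pairwise fun x y => d x y = h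

/-- A list is good for a tree. -/
def GoodT (d : V → V → ℕ) (l : List V) : Prop :=
  Fwd d l ∨ Fwd d l.reverse ∨ Star d l

/-- A list is good for an order. -/
def GoodF (f : V → ℕ) (l : List V) : Prop :=
  l.Pairwise (fun x y => f x < f y) ∨ l.Pairwise (fun x y => f y < f x)

lemma Fwd.sublist {d : V → V → ℕ} {l l' : List V} (h : l' <+ l) : Fwd d l → Fwd d l' := by
  induction h with
  | slnil => exact id
  | cons a h ih =>
    intro hf
    exact ih hf.2
  | cons_cons a h ih =>
    intro hf
    exact ⟨fun y hy z hz => hf.1 y (h.subset hy) z (h.subset hz), ih hf.2⟩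

lemma GoodT.sublist {d : V → V → ℕ} {l l' : List V} (h : l' <+ l) (hg : GoodT d l) :
    GoodT d l' := by
  rcases hg with hg | hg | ⟨c, hg⟩
  · exact Or.inl (hg.sublist h)
  · exact Or.inr (Or.inl (hg.sublist h.reverse))
  · exact Or.inr (Or.inr ⟨c, hg.sublist h⟩)

lemma GoodF.sublist {f : V → ℕ} {l l' : List V} (h : l' <+ l) (hg : GoodF f l) :
    GoodF f l' := by
  rcases hg with hg | hg
  · exact Or.inl (hg.sublist h)
  · exact Or.inr (hg.sublist h)

/-- Decreasing distances to a point `x` give a forward list. -/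
lemma fwd_of_anti {d : V → V → ℕ} (hd : IsTree d) (x : V) : ∀ l : List V, (∀ y ∈ l, x ≠ y) →
    l.Pairwise (fun y z => d x z < d x y) → Fwd d l := by
  intro l
  induction l with
  | nil => intro _ _; trivial
  | cons a l ih =>
    intro hx hp
    rw [List.pairwise_cons] at hp
    refine ⟨?_, ih (fun y hy => hx y (List.mem_cons_of_mem _ hy)) hp.2⟩
    intro y hy z hz
    have h1 := hp.1 y hy
    have h2 := hp.1 z hz
    -- d a y = d x a
    have h3 : d a y = d x a := by
      have := hd.eq_of_lt (x := a) (y := x) (z := y) (by rw [hd.symm a x]; exact h1)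
      rw [this, hd.symm]
    have h4 := hd.ultra y x z
    rw [hd.symm y x] at h4
    rw [h3]
    omega

lemma goodT_of_goodF {d : V → V → ℕ} (hd : IsTree d) (x : V) (l : List V) (hx : ∀ y ∈ l, x ≠ y)
    (h : GoodF (fun y => d x y) l) : GoodT d l := by
  rcases h with h | h
  · refine Or.inr (Or.inl (fwd_of_anti hd x _ (by simpa using hx) ?_))
    rw [List.pairwise_reverse]
    exact h
  · exact Or.inl (fwd_of_anti hd x _ hx h)

/-- Every point of the list is below all later points or above all later points. -/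
def Dir (f : V → ℕ) : List V → Prop
  | [] => True
  | x :: l => ((∀ y ∈ l, f x < f y) ∨ (∀ y ∈ l, f y < f x)) ∧ Dir f l

lemma Dir.sublist {f : V → ℕ} {l l' : List V} (h : l' <+ l) : Dir f l → Dir f l' := by
  induction h with
  | slnil => exact id
  | cons a h ih =>
    intro hf
    exact ih hf.2
  | cons_cons a h ih =>
    intro hf
    refine ⟨?_, ih hf.2⟩
    rcases hf.1 with h1 | h1
    · exact Or.inl fun y hy => h1 y (h.subset hy)
    · exact Or.inr fun y hy => h1 y (h.subset hy)

lemma exists_split_dir {f : V → ℕ} : ∀ l : List V, Dir f l → ∃ u v : List V, u <+ l ∧ v <+ l ∧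
    u.Pairwise (fun x y => f x < f y) ∧ v.Pairwise (fun x y => f y < f x) ∧
    l.length ≤ u.length + v.length := by
  intro l
  induction l with
  | nil => intro _; exact ⟨[], [], by simp, by simp, by simp, by simp, by simp⟩
  | cons x l ih =>
    intro h
    obtain ⟨u, v, hu, hv, hpu, hpv, hl⟩ := ih h.2
    rcases h.1 with h1 | h1
    · refine ⟨x :: u, v, hu.cons_cons x, hv.cons x, ?_, hpv, ?_⟩
      · rw [List.pairwise_cons]
        exact ⟨fun y hy => h1 y (hu.subset hy), hpu⟩
      · simp only [List.length_cons]; omega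
    · refine ⟨u, x :: v, hu.cons x, hv.cons_cons x, hpu, ?_, ?_⟩
      · rw [List.pairwise_cons]
        exact ⟨fun y hy => h1 y (hv.subset hy), hpv⟩
      · simp only [List.length_cons]; omega

lemma exists_goodF_of_dir {f : V → ℕ} (l : List V) (h : Dir f l) :
    ∃ u : List V, u <+ l ∧ GoodF f u ∧ l.length ≤ 2 * u.length := by
  obtain ⟨u, v, hu, hv, hpu, hpv, hl⟩ := exists_split_dir l h
  rcases le_total v.length u.length with h1 | h1
  · exact ⟨u, hu, Or.inl hpu, by omega⟩
  · exact ⟨v, hv, Or.inr hpv, by omega⟩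

open Classical in
lemma exists_goodF_of_dir_family (F : Finset (V → ℕ)) : ∀ (l : List V), (∀ f ∈ F, Dir f l) →
    ∃ u : List V, u <+ l ∧ (∀ f ∈ F, GoodF f u) ∧ l.length ≤ 2 ^ F.card * u.length := by
  induction F using Finset.induction_on with
  | empty => intro l _; exact ⟨l, List.Sublist.refl _, by simp, by simp⟩
  | insert f F hf ih =>
    intro l h
    obtain ⟨u, hu, hgu, hl⟩ := exists_goodF_of_dir l (h f (mem_insert_self _ _))
    obtain ⟨v, hv, hgv, hl'⟩ := ih u fun g hg => (h g (mem_insert_of_mem hg)).sublist hu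
    refine ⟨v, hv.trans hu, ?_, ?_⟩
    · intro g hg
      rw [mem_insert] at hg
      rcases hg with rfl | hg
      · exact hgu.sublist hv
      · exact hgv g hg
    · rw [card_insert_of_notMem hf, pow_succ]
      calc l.length ≤ 2 * u.length := hl
        _ ≤ 2 * (2 ^ F.card * v.length) := by omega
        _ = _ := by ring

/-- Restriction of the orders: the position of `x` relative to the later points. -/
lemma exists_dir_subset (S : Finset V) (F : Finset (V → ℕ)) (hF : ∀ f ∈ F, Set.InjOn f S) (x : V)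
    (hx : x ∈ S) : ∀ C : Finset V, C ⊆ S → x ∉ C → ∃ C' ⊆ C, C.card ≤ 2 ^ F.card * C'.card ∧
      ∀ f ∈ F, (∀ y ∈ C', f x < f y) ∨ (∀ y ∈ C', f y < f x) := by
  classical
  induction F using Finset.induction_on with
  | empty => intro C _ _; exact ⟨C, Subset.refl _, by simp, by simp⟩
  | insert f F hf ih =>
    intro C hC hxC
    -- split by `f`
    have hsplit : (C.filter fun y => f x < f y).card + (C.filter fun y => ¬ f x < f y).card =
        C.card := card_filter_add_card_filter_not _
    have key : ∃ C1 ⊆ C, C.card ≤ 2 * C1.card ∧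
        ((∀ y ∈ C1, f x < f y) ∨ (∀ y ∈ C1, f y < f x)) := by
      rcases le_total (C.filter fun y => ¬ f x < f y).card (C.filter fun y => f x < f y).card
        with h | h
      · exact ⟨C.filter fun y => f x < f y, filter_subset _ _, by omega,
          Or.inl fun y hy => (mem_filter.1 hy).2⟩
      · refine ⟨C.filter fun y => ¬ f x < f y, filter_subset _ _, by omega,
          Or.inr fun y hy => ?_⟩
        have h1 := (mem_filter.1 hy)
        have h2 : f y ≠ f x := by
          intro he
          have := hF f (mem_insert_self _ _) (mem_coe.2 (hC h1.1)) (mem_coe.2 hx) he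
          subst this
          exact hxC h1.1
        omega
    obtain ⟨C1, hC1, hcard, hdir⟩ := key
    obtain ⟨C2, hC2, hcard2, hdir2⟩ := ih (fun g hg => hF g (mem_insert_of_mem hg)) C1
      (hC1.trans hC) (fun h => hxC (hC1 h))
    refine ⟨C2, hC2.trans hC1, ?_, ?_⟩
    · rw [card_insert_of_notMem hf, pow_succ]
      calc C.card ≤ 2 * C1.card := hcard
        _ ≤ 2 * (2 ^ F.card * C2.card) := by omega
        _ = _ := by ring
    · intro g hg
      rw [mem_insert] at hg
      rcases hg with rfl | hg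
      · rcases hdir with h | h
        · exact Or.inl fun y hy => h y (hC2 hy)
        · exact Or.inr fun y hy => h y (hC2 hy)
      · exact hdir2 g hg

/-- The greedy lemma. -/
lemma greedy (S : Finset V) (T : Finset (V → V → ℕ)) (F : Finset (V → ℕ))
    (hF : ∀ f ∈ F, Set.InjOn f S) (P : ℕ) (hP : 1 ≤ P)
    (hstep : ∀ C ⊆ S, 2 ≤ C.card → ∃ x ∈ C, ∃ C' ⊆ C, x ∉ C' ∧ C.card ≤ 2 ^ P * C'.card ∧
      ∀ d ∈ T, ∀ y ∈ C', ∀ z ∈ C', d y z < d x y) :
    ∀ (M : ℕ) (C : Finset V), C ⊆ S → 2 ^ ((P + F.card) * M) ≤ C.card → ∃ l : List V,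
      l.length = M ∧ l.Nodup ∧ (∀ x ∈ l, x ∈ C) ∧ (∀ d ∈ T, Fwd d l) ∧ (∀ f ∈ F, Dir f l) := by
  intro M
  induction M with
  | zero => intro C _ _; exact ⟨[], rfl, by simp, by simp, fun _ _ => trivial, fun _ _ => trivial⟩
  | succ M ih =>
    intro C hC hcard
    have h2 : 2 ≤ C.card := by
      refine le_trans ?_ hcard
      calc 2 = 2 ^ 1 := rfl
        _ ≤ 2 ^ ((P + F.card) * (M + 1)) := Nat.pow_le_pow_right (by norm_num) (by nlinarith)
    obtain ⟨x, hx, C1, hC1, hxC1, hcard1, hcell⟩ := hstep C hC h2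
    obtain ⟨C2, hC2, hcard2, hdir⟩ := exists_dir_subset S F hF x (hC hx) C1 (hC1.trans hC) hxC1
    have h3 : 2 ^ ((P + F.card) * M) ≤ C2.card := by
      have h4 : C.card ≤ 2 ^ (P + F.card) * C2.card := by
        calc C.card ≤ 2 ^ P * C1.card := hcard1
          _ ≤ 2 ^ P * (2 ^ F.card * C2.card) := Nat.mul_le_mul_left _ hcard2
          _ = _ := by rw [pow_add]; ring
      have h5 : 2 ^ ((P + F.card) * (M + 1)) = 2 ^ (P + F.card) * 2 ^ ((P + F.card) * M) := by
        rw [← pow_add]; congr 1; ring
      rw [h5] at hcard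
      exact Nat.le_of_mul_le_mul_left (hcard.trans h4) (by positivity)
    obtain ⟨l, hl, hnd, hlC, hfwd, hdirl⟩ := ih C2 (hC2.trans (hC1.trans hC)) h3
    refine ⟨x :: l, by simp [hl], ?_, ?_, ?_, ?_⟩
    · rw [List.nodup_cons]
      exact ⟨fun h => hxC1 (hC2 (hlC x h)), hnd⟩
    · intro y hy
      rw [List.mem_cons] at hy
      rcases hy with rfl | hy
      · exact hx
      · exact hC1 (hC2 (hlC y hy))
    · intro d hd
      exact ⟨fun y hy z hz => hcell d hd y (hC2 (hlC y hy)) z (hC2 (hlC z hz)), hfwd d hd⟩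
    · intro f hf
      refine ⟨?_, hdirl f hf⟩
      rcases hdir f hf with h | h
      · exact Or.inl fun y hy => h y (hlC y hy)
      · exact Or.inr fun y hy => h y (hlC y hy)

end Pool.Agent.N440.Trees
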