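import Pool.Agent.N440.Trees.Lower

/-!
# The lower bound for trees and orders: the family of examples
-/

set_option autoImplicit false

namespace Pool.Agent.N440.Trees

open Finset

/-- Examples with `k₁` trees, `k₂` binary trees, one order and `N` points, all good sets having
at most `n` points. -/
def Low (k₁ k₂ n N : ℕ) : Prop :=
  ∃ (V : Type) (_ : Fintype V) (f : V → ℕ) (d₁ : Fin k₁ → V → V → ℕ) (d₂ : Fin k₂ → V → V → ℕ),
    Function.Injective f ∧ (∀ i, IsTree (d₁ i)) ∧ (∀ i, IsTree (d₂ i) ∧ IsBin (d₂ i)) ∧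
    Fintype.card V = N ∧ ∀ A : Finset V, (∀ i, GoodR (ordF f) (d₁ i) A) →
      (∀ i, GoodR (ordF f) (d₂ i) A) → A.card ≤ n

lemma Low_zero (n : ℕ) : Low 0 0 n n :=
  ⟨Fin n, inferInstance, fun i => i, fun i => i.elim0, fun i => i.elim0, Fin.val_injective,
    fun i => i.elim0, fun i => i.elim0, by simp, fun A _ _ => (card_le_univ A).trans (by simp)⟩

/-- The star. -/
def starT {M : Type} [DecidableEq M] (x y : M) : ℕ := if x = y then 0 else 1

lemma starT_isTree {M : Type} [DecidableEq M] : IsTree (starT (M := M)) where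
  self x := by simp [starT]
  pos x y h := by simp [starT, h]
  symm x y := by simp [starT, eq_comm]
  ultra x y z := by
    unfold starT
    by_cases hxz : x = z
    · simp [hxz]
    · by_cases hxy : x = y
      · subst hxy; simp [hxz]
      · simp [hxy]; split_ifs <;> omega

/-- The forward caterpillar. -/
def catF {M : Type} [DecidableEq M] (Q : ℕ) (f : M → ℕ) (x y : M) : ℕ :=
  if x = y then 0 else Q - min (f x) (f y)

/-- The backward caterpillar. -/
def catB {M : Type} [DecidableEq M] (f : M → ℕ) (x y : M) : ℕ :=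
  if x = y then 0 else max (f x) (f y) + 1

lemma catF_ne {M : Type} [DecidableEq M] {Q : ℕ} {f : M → ℕ} {x y : M} (h : x ≠ y) :
    catF Q f x y = Q - min (f x) (f y) := by rw [catF, if_neg h]

lemma catB_ne {M : Type} [DecidableEq M] {f : M → ℕ} {x y : M} (h : x ≠ y) :
    catB f x y = max (f x) (f y) + 1 := by rw [catB, if_neg h]

lemma catF_isTree {M : Type} [DecidableEq M] {Q : ℕ} {f : M → ℕ} (hQ : ∀ x, f x < Q) :
    IsTree (catF Q f) where
  self x := by simp [catF]
  pos x y h := by rw [catF_ne h]; have := hQ x; omega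
  symm x y := by
    by_cases h : x = y
    · rw [h]
    · rw [catF_ne h, catF_ne (Ne.symm h), min_comm]
  ultra x y z := by
    by_cases hxz : x = z
    · subst hxz; simp [catF]
    · by_cases hxy : x = y
      · subst hxy; exact le_max_right _ _
      · by_cases hyz : y = z
        · subst hyz; exact le_max_left _ _
        · rw [catF_ne hxz, catF_ne hxy, catF_ne hyz]; omega

lemma catB_isTree {M : Type} [DecidableEq M] {f : M → ℕ} : IsTree (catB f) where
  self x := by simp [catB]
  pos x y h := by rw [catB_ne h]; omega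
  symm x y := by
    by_cases h : x = y
    · rw [h]
    · rw [catB_ne h, catB_ne (Ne.symm h), max_comm]
  ultra x y z := by
    by_cases hxz : x = z
    · subst hxz; simp [catB]
    · by_cases hxy : x = y
      · subst hxy; exact le_max_right _ _
      · by_cases hyz : y = z
        · subst hyz; exact le_max_left _ _
        · rw [catB_ne hxz, catB_ne hxy, catB_ne hyz]; omega

lemma catF_isBin {M : Type} [DecidableEq M] {Q : ℕ} {f : M → ℕ} (hf : Function.Injective f)
    (hQ : ∀ x, f x < Q) : IsBin (catF Q f) := by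
  intro x y z hxy hyz hxz ⟨h1, h2⟩
  rw [catF_ne hxy, catF_ne hyz] at h1
  rw [catF_ne hxy, catF_ne hxz] at h2
  have e1 : f x ≠ f y := fun h => hxy (hf h)
  have e2 : f y ≠ f z := fun h => hyz (hf h)
  have e3 : f x ≠ f z := fun h => hxz (hf h)
  have q1 := hQ x
  have q2 := hQ y
  have q3 := hQ z
  omega

lemma catB_isBin {M : Type} [DecidableEq M] {f : M → ℕ} (hf : Function.Injective f) :
    IsBin (catB f) := by
  intro x y z hxy hyz hxz ⟨h1, h2⟩
  rw [catB_ne hxy, catB_ne hyz] at h1
  rw [catB_ne hxy, catB_ne hxz] at h2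
  have e1 : f x ≠ f y := fun h => hxy (hf h)
  have e2 : f y ≠ f z := fun h => hyz (hf h)
  have e3 : f x ≠ f z := fun h => hxz (hf h)
  omega

/-- one more tree -/
lemma Low.add_tree {k₁ k₂ n N : ℕ} (hn : 2 ≤ n) (h : Low k₁ k₂ n N) :
    Low (k₁ + 1) k₂ n (N ^ (n - 1)) := by
  classical
  obtain ⟨M, hM, f, d₁, d₂, hf, h1, h2, hcard, hgood⟩ := h
  set dM : Fin (k₁ + 1) ⊕ Fin k₂ → M → M → ℕ := Sum.elim (Fin.cons starT d₁) d₂ with hdM
  have htree : ∀ i, IsTree (dM i) := by
    rintro (i | i)
    · refine Fin.cases ?_ (fun j => ?_) i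
      · exact starT_isTree
      · exact h1 j
    · exact (h2 i).1
  have hstar : ∀ x y : M, f x < f y → dM (Sum.inl 0) x y = 1 := by
    intro x y hxy
    have : x ≠ y := fun h => by rw [h] at hxy; omega
    show starT x y = 1
    rw [starT, if_neg this]
  obtain ⟨V, hV, f', d', hf', htree', hbin', hcard', -, -, hG⟩ := nested f hf dM htree n
    (by
      intro A hA
      exact hgood A (fun i => hA (Sum.inl i.succ)) (fun i => hA (Sum.inr i)))
    (by
      intro x y z hxy hyz
      refine ⟨Sum.inl 0, ?_⟩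
      rw [hstar x y hxy, hstar y z hyz]; omega)
    (by
      intro x y z hxy hyz
      refine ⟨Sum.inl 0, ?_⟩
      rw [hstar x y hxy, hstar y z hyz]; omega) (n - 1)
  refine ⟨V, hV, f', fun i => d' (Sum.inl i), fun i => d' (Sum.inr i), hf',
    fun i => htree' _, fun i => ⟨htree' _, hbin' (Sum.inr i) (h2 i).2⟩, by rw [hcard', hcard], ?_⟩
  intro A hA1 hA2
  have h3 := hG A (by
    rintro (i | i)
    · exact hA1 i
    · exact hA2 i)
  refine h3.trans ?_
  rw [Nat.sub_add_cancel (by omega), max_self]

/-- two more binary trees -/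
lemma Low.add_bin {k₁ k₂ n N : ℕ} (hn : 2 ≤ n) (h : Low k₁ k₂ n N) :
    Low k₁ (k₂ + 2) n (N ^ (n - 1)) := by
  classical
  obtain ⟨M, hM, f, d₁, d₂, hf, h1, h2, hcard, hgood⟩ := h
  set Q : ℕ := (univ.sup fun x : M => f x) + 1 with hQdef
  have hQ : ∀ x, f x < Q := fun x => Nat.lt_succ_of_le (le_sup (f := fun x => f x) (mem_univ x))
  set dM : Fin k₁ ⊕ Fin (k₂ + 2) → M → M → ℕ :=
    Sum.elim d₁ (Fin.cons (catF Q f) (Fin.cons (catB f) d₂)) with hdM
  have htree2 : ∀ i, IsTree (dM (Sum.inr i)) ∧ IsBin (dM (Sum.inr i)) := by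
    intro i
    refine Fin.cases ?_ (fun j => ?_) i
    · exact ⟨catF_isTree hQ, catF_isBin hf hQ⟩
    · refine Fin.cases ?_ (fun j => ?_) j
      · exact ⟨catB_isTree, catB_isBin hf⟩
      · exact h2 j
  have htree : ∀ i, IsTree (dM i) := by
    rintro (i | i)
    · exact h1 i
    · exact (htree2 i).1
  have hcF : ∀ x y : M, f x < f y → dM (Sum.inr 0) x y = Q - f x := by
    intro x y hxy
    have : x ≠ y := fun h => by rw [h] at hxy; omega
    show catF Q f x y = _
    rw [catF_ne this, min_eq_left hxy.le]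
  have hcB : ∀ x y : M, f x < f y → dM (Sum.inr 1) x y = f y + 1 := by
    intro x y hxy
    have : x ≠ y := fun h => by rw [h] at hxy; omega
    show catB f x y = _
    rw [catB_ne this, max_eq_right hxy.le]
  obtain ⟨V, hV, f', d', hf', htree', hbin', hcard', -, -, hG⟩ := nested f hf dM htree n
    (by
      intro A hA
      exact hgood A (fun i => hA (Sum.inl i)) (fun i => hA (Sum.inr i.succ.succ)))
    (by
      intro x y z hxy hyz
      refine ⟨Sum.inr 1, ?_⟩
      rw [hcB x y hxy, hcB y z hyz]; omega)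
    (by
      intro x y z hxy hyz
      refine ⟨Sum.inr 0, ?_⟩
      rw [hcF x y hxy, hcF y z hyz]; omega) (n - 1)
  refine ⟨V, hV, f', fun i => d' (Sum.inl i), fun i => d' (Sum.inr i), hf',
    fun i => htree' _, fun i => ⟨htree' _, hbin' (Sum.inr i) (htree2 i).2⟩,
    by rw [hcard', hcard], ?_⟩
  intro A hA1 hA2
  have h3 := hG A (by
    rintro (i | i)
    · exact hA1 i
    · exact hA2 i)
  refine h3.trans ?_
  rw [Nat.sub_add_cancel (by omega), max_self]

lemma Low_one {n : ℕ} (hn : 2 ≤ n) : Low 0 1 n (2 ^ (n - 1)) := by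
  classical
  have hcase : ∀ x y z : Bool, x.toNat < y.toNat → y.toNat < z.toNat → False := by
    intro x y z hxy hyz
    have := Bool.toNat_le z
    omega
  have hbool : IsTree (starT (M := Bool)) := starT_isTree
  obtain ⟨V, hV, f', d', hf', htree', hbin', hcard', -, -, hG⟩ := nested (ι := Fin 1)
    (fun b : Bool => b.toNat) (by intro a b; cases a <;> cases b <;> simp)
    (fun _ => starT) (fun _ => hbool) n
    (by
      intro A _
      exact (card_le_univ A).trans (by simpa using hn))
    (fun x y z hxy hyz => (hcase x y z hxy hyz).elim)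
    (fun x y z hxy hyz => (hcase x y z hxy hyz).elim) (n - 1)
  refine ⟨V, hV, f', fun i => i.elim0, fun i => d' i, hf', fun i => i.elim0,
    fun i => ⟨htree' _, hbin' i ?_⟩, by rw [hcard']; simp, ?_⟩
  · intro x y z hxy hyz hxz
    exfalso
    cases x <;> cases y <;> cases z <;> simp at hxy hyz hxz
  · intro A _ hA2
    refine (hG A hA2).trans ?_
    rw [Nat.sub_add_cancel (by omega), max_self]

/-- The examples. -/
lemma Low_all {n : ℕ} (hn : 2 ≤ n) (k₁ k₂ : ℕ) :
    Low k₁ k₂ n ((if Even k₂ then n else 2) ^ ((n - 1) ^ (k₁ + (k₂ + 1) / 2))) := by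
  induction k₁ with
  | zero =>
    induction k₂ using Nat.twoStepInduction with
    | zero => simpa using Low_zero n
    | one => simpa using Low_one hn
    | more k ih _ =>
      have h := ih.add_bin hn
      rw [← pow_mul, ← pow_succ] at h
      have h1 : Even (k + 1 + 1) ↔ Even k := by
        constructor
        · intro h
          have := (Nat.even_add (m := k) (n := 2)).1 h
          simpa using this
        · intro h
          exact (Nat.even_add (m := k) (n := 2)).2 (by simpa using h)
      have h2 : 0 + (k + 1 + 1 + 1) / 2 = 0 + (k + 1) / 2 + 1 := by omega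
      rw [h2]
      simp only [h1]
      exact h
  | succ k ih =>
    have h := ih.add_tree hn
    rw [← pow_mul, ← pow_succ] at h
    have h2 : k + 1 + (k₂ + 1) / 2 = k + (k₂ + 1) / 2 + 1 := by omega
    rw [h2]
    exact h

end Pool.Agent.N440.Trees
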