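import Pool.Agent.N440.Trees.Upper
import Pool.Agent.N440.Trees.Family

/-!
# Colourings determined by trees and orders
-/

set_option autoImplicit false

namespace Pool.Agent.N440.Trees

open Finset
open scoped List

variable {V : Type*}

/-! ### Sequences -/

/-- forward sequences -/
def FwdX {m : ℕ} (d : V → V → ℕ) (X : Fin m → V) : Prop :=
  ∀ i j k, i < j → j < k → d (X j) (X k) < d (X i) (X j)

/-- backward sequences -/
def BwdX {m : ℕ} (d : V → V → ℕ) (X : Fin m → V) : Prop :=
  ∀ i j k, i < j → j < k → d (X i) (X j) < d (X j) (X k)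

/-- star sequences -/
def StarX {m : ℕ} (d : V → V → ℕ) (X : Fin m → V) : Prop :=
  ∃ h, ∀ i j, i ≠ j → d (X i) (X j) = h

lemma Fwd.get {d : V → V → ℕ} : ∀ (l : List V), Fwd d l → ∀ (i j k : ℕ) (hij : i < j)
    (hjk : j < k) (hk : k < l.length), d l[j] l[k] < d l[i] l[j] := by
  intro l
  induction l with
  | nil => intro _ i j k _ _ hk; simp at hk
  | cons x l ih =>
    intro h i j k hij hjk hk
    obtain ⟨j', rfl⟩ : ∃ j', j = j' + 1 := ⟨j - 1, by omega⟩
    obtain ⟨k', rfl⟩ : ∃ k', k = k' + 1 := ⟨k - 1, by omega⟩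
    rw [List.length_cons] at hk
    rcases Nat.eq_zero_or_pos i with rfl | hi
    · simp only [List.getElem_cons_succ, List.getElem_cons_zero]
      exact h.1 _ (List.getElem_mem _) _ (List.getElem_mem _)
    · obtain ⟨i', rfl⟩ : ∃ i', i = i' + 1 := ⟨i - 1, by omega⟩
      simp only [List.getElem_cons_succ]
      exact ih h.2 i' j' k' (by omega) (by omega) (by omega)

/-- The three kinds of sequences. -/
def GoodX {m : ℕ} (d : V → V → ℕ) (X : Fin m → V) : Prop := FwdX d X ∨ BwdX d X ∨ StarX d X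

lemma GoodT.goodX {d : V → V → ℕ} (hd : IsTree d) {l : List V} (h : GoodT d l) :
    GoodX d (fun i : Fin l.length => l[i]) := by
  rcases h with h | h | ⟨c, h⟩
  · exact Or.inl fun i j k hij hjk => Fwd.get l h i j k hij hjk k.2
  · refine Or.inr (Or.inl fun i j k hij hjk => ?_)
    have hi := i.2
    have hj := j.2
    have hk := k.2
    have h1 := Fwd.get l.reverse h (l.length - 1 - k) (l.length - 1 - j) (l.length - 1 - i)
      (by omega) (by omega) (by rw [List.length_reverse]; omega)
    simp only [List.getElem_reverse] at h1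
    have e1 : l.length - 1 - (l.length - 1 - (i : ℕ)) = i := by omega
    have e2 : l.length - 1 - (l.length - 1 - (j : ℕ)) = j := by omega
    have e3 : l.length - 1 - (l.length - 1 - (k : ℕ)) = k := by omega
    simp only [e1, e2, e3] at h1
    show d l[(i : ℕ)] l[(j : ℕ)] < d l[(j : ℕ)] l[(k : ℕ)]
    rw [hd.symm l[(i : ℕ)] l[(j : ℕ)], hd.symm l[(j : ℕ)] l[(k : ℕ)]]
    exact h1
  · refine Or.inr (Or.inr ⟨c, fun i j hij => ?_⟩)
    rw [List.pairwise_iff_getElem] at h
    rcases lt_or_gt_of_ne (fun h => hij (Fin.ext h)) with h1 | h1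
    · exact h i j i.2 j.2 h1
    · have := h j i j.2 i.2 h1
      show d l[(i : ℕ)] l[(j : ℕ)] = c
      rw [hd.symm]; exact this

lemma FwdX.formula {m : ℕ} {d : V → V → ℕ} (hd : IsTree d) {X : Fin m → V}
    (hX : Function.Injective X) (h : FwdX d X) (p q s u : Fin m) :
    d (X p) (X q) < d (X s) (X u) ↔ s ≠ u ∧ (p = q ∨ min s u < min p q) := by
  have h1 : ∀ i j k : Fin m, i < j → i < k → d (X i) (X j) = d (X i) (X k) := by
    intro i j k hij hik
    rcases lt_trichotomy j k with hjk | rfl | hjk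
    · exact (hd.eq_of_lt (h i j k hij hjk)).symm
    · rfl
    · exact hd.eq_of_lt (h i k j hik hjk)
  have h2 : ∀ i j i' j' : Fin m, i < j → i' < j' → i < i' →
      d (X i') (X j') < d (X i) (X j) := by
    intro i j i' j' hij hij' hii
    rw [h1 i j i' hij hii]
    exact h i i' j' hii hij'
  have h3 : ∀ i j i' j' : Fin m, i < j → i' < j' →
      (d (X i) (X j) < d (X i') (X j') ↔ i' < i) := by
    intro i j i' j' hij hij'
    rcases lt_trichotomy i i' with hii | rfl | hii
    · have := h2 i j i' j' hij hij' hii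
      constructor
      · intro h; omega
      · intro h; exact absurd h (not_lt.2 hii.le)
    · rw [h1 i j j' hij hij']
      simp
    · have := h2 i' j' i j hij' hij hii
      exact ⟨fun _ => hii, fun _ => this⟩
  have h4 : ∀ a b : Fin m, d (X a) (X b) = d (X (min a b)) (X (max a b)) := by
    intro a b
    rcases le_total a b with hab | hab
    · rw [min_eq_left hab, max_eq_right hab]
    · rw [min_eq_right hab, max_eq_left hab, hd.symm]
  by_cases hsu : s = u
  · subst hsu
    rw [hd.self]; simp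
  by_cases hpq : p = q
  · subst hpq
    rw [hd.self]
    have := hd.pos _ _ (fun h => hsu (hX h))
    simp [hsu, this]
  rw [h4 p q, h4 s u, h3 _ _ _ _ (min_lt_max.2 hpq) (min_lt_max.2 hsu)]
  simp [hsu, hpq]

lemma BwdX.formula {m : ℕ} {d : V → V → ℕ} (hd : IsTree d) {X : Fin m → V}
    (hX : Function.Injective X) (h : BwdX d X) (p q s u : Fin m) :
    d (X p) (X q) < d (X s) (X u) ↔ s ≠ u ∧ (p = q ∨ max p q < max s u) := by
  have h1 : FwdX d (fun i => X (Fin.rev i)) := by
    intro i j k hij hjk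
    have h0 := h k.rev j.rev i.rev (Fin.rev_lt_rev.2 hjk) (Fin.rev_lt_rev.2 hij)
    show d (X j.rev) (X k.rev) < d (X i.rev) (X j.rev)
    rw [hd.symm (X j.rev) (X k.rev), hd.symm (X i.rev) (X j.rev)]
    exact h0
  have h2 : d (X p.rev.rev) (X q.rev.rev) < d (X s.rev.rev) (X u.rev.rev) ↔ _ :=
    h1.formula hd (hX.comp Fin.rev_injective) p.rev q.rev s.rev u.rev
  rw [Fin.rev_rev, Fin.rev_rev, Fin.rev_rev, Fin.rev_rev] at h2
  rw [h2]
  have h3 : ∀ a b : Fin m, min a.rev b.rev = (max a b).rev := by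
    intro a b
    rcases le_total a b with hab | hab
    · rw [max_eq_right hab, min_eq_right (Fin.rev_le_rev.2 hab)]
    · rw [max_eq_left hab, min_eq_left (Fin.rev_le_rev.2 hab)]
  rw [h3, h3, Fin.rev_lt_rev]
  simp only [ne_eq, Fin.rev_inj]

lemma StarX.formula {m : ℕ} {d : V → V → ℕ} (hd : IsTree d) {X : Fin m → V}
    (hX : Function.Injective X) (h : StarX d X) (p q s u : Fin m) :
    d (X p) (X q) < d (X s) (X u) ↔ s ≠ u ∧ p = q := by
  obtain ⟨c, hc⟩ := h
  by_cases hsu : s = u
  · subst hsu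
    rw [hd.self]; simp
  have h0 := hd.pos _ _ (fun h => hsu (hX h))
  by_cases hpq : p = q
  · subst hpq
    rw [hd.self]
    simp [hsu, h0]
  · rw [hc p q hpq, hc s u hsu]
    simp [hpq]

/-- Position-preserving maps between subsequences of a good sequence preserve all comparisons. -/
lemma GoodX.iso {m r : ℕ} {d : V → V → ℕ} (hd : IsTree d) {X : Fin m → V}
    (hX : Function.Injective X) (h : GoodX d X) {a b : Fin r → Fin m} (ha : StrictMono a)
    (hb : StrictMono b) (p q s u : Fin r) :
    d (X (a p)) (X (a q)) < d (X (a s)) (X (a u)) ↔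
      d (X (b p)) (X (b q)) < d (X (b s)) (X (b u)) := by
  rcases h with h | h | h
  · rw [h.formula hd hX, h.formula hd hX, ← ha.monotone.map_min, ← ha.monotone.map_min,
      ← hb.monotone.map_min, ← hb.monotone.map_min, ha.lt_iff_lt, hb.lt_iff_lt]
    simp only [ne_eq, ha.injective.eq_iff, hb.injective.eq_iff]
  · rw [h.formula hd hX, h.formula hd hX, ← ha.monotone.map_max, ← ha.monotone.map_max,
      ← hb.monotone.map_max, ← hb.monotone.map_max, ha.lt_iff_lt, hb.lt_iff_lt]
    simp only [ne_eq, ha.injective.eq_iff, hb.injective.eq_iff]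
  · rw [h.formula hd hX, h.formula hd hX]
    simp only [ne_eq, ha.injective.eq_iff, hb.injective.eq_iff]

/-- Good sequences for functions. -/
def MonX {m : ℕ} (f : V → ℕ) (X : Fin m → V) : Prop :=
  (∀ i j, i < j → f (X i) < f (X j)) ∨ (∀ i j, i < j → f (X j) < f (X i)) ∨
    (∀ i j, f (X i) = f (X j))

/-- A list is good for an arbitrary function: strictly monotone or constant. -/
def WGoodF (f : V → ℕ) (l : List V) : Prop := GoodF f l ∨ ∀ x ∈ l, ∀ y ∈ l, f x = f y

lemma WGoodF.monX {f : V → ℕ} {l : List V} (h : WGoodF f l) :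
    MonX f (fun i : Fin l.length => l[i]) := by
  rcases h with (h | h) | h
  · rw [List.pairwise_iff_getElem] at h
    exact Or.inl fun i j hij => h i j i.2 j.2 hij
  · rw [List.pairwise_iff_getElem] at h
    exact Or.inr (Or.inl fun i j hij => h i j i.2 j.2 hij)
  · exact Or.inr (Or.inr fun i j => h _ (List.getElem_mem _) _ (List.getElem_mem _))

lemma MonX.iso {m r : ℕ} {f : V → ℕ} {X : Fin m → V} (h : MonX f X) {a b : Fin r → Fin m}
    (ha : StrictMono a) (hb : StrictMono b) (p q : Fin r) :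
    f (X (a p)) < f (X (a q)) ↔ f (X (b p)) < f (X (b q)) := by
  rcases h with h | h | h
  · have h1 : StrictMono fun i => f (X (a i)) := fun i j hij => h _ _ (ha hij)
    have h2 : StrictMono fun i => f (X (b i)) := fun i j hij => h _ _ (hb hij)
    exact (h1.lt_iff_lt (a := p) (b := q)).trans (h2.lt_iff_lt (a := p) (b := q)).symm
  · have h1 : StrictAnti fun i => f (X (a i)) := fun i j hij => h _ _ (ha hij)
    have h2 : StrictAnti fun i => f (X (b i)) := fun i j hij => h _ _ (hb hij)
    exact (h1.lt_iff_gt (a := p) (b := q)).trans (h2.lt_iff_gt (a := p) (b := q)).symm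
  · rw [h (a p) (a q), h (b p) (b q)]
    simp

/-- Subsets of the set of elements of a sequence. -/
lemma exists_enum {m r : ℕ} {X : Fin m → V} (hX : Function.Injective X) (A : Finset V)
    (hA : A ⊆ univ.map ⟨X, hX⟩) (hr : A.card = r) :
    ∃ a : Fin r → Fin m, ∃ ha : StrictMono a,
      A = univ.map ⟨fun i => X (a i), hX.comp ha.injective⟩ := by
  classical
  set I : Finset (Fin m) := univ.filter fun i => X i ∈ A with hI
  have hIA : I.map ⟨X, hX⟩ = A := by
    ext v
    rw [mem_map]
    constructor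
    · rintro ⟨i, hi, rfl⟩
      exact (mem_filter.1 hi).2
    · intro hv
      have := hA hv
      rw [mem_map] at this
      obtain ⟨i, _, hiv⟩ := this
      exact ⟨i, mem_filter.2 ⟨mem_univ _, by
        have h2 : X i = v := hiv
        rw [h2]; exact hv⟩, hiv⟩
  have hIr : I.card = r := by rw [← hr, ← hIA, card_map]
  refine ⟨fun i => I.orderEmbOfFin hIr i, (I.orderEmbOfFin hIr).strictMono, ?_⟩
  rw [← hIA]
  ext v
  simp only [mem_map, Function.Embedding.coeFn_mk]
  constructor
  · rintro ⟨i, hi, rfl⟩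
    have : i ∈ Set.range (I.orderEmbOfFin hIr) := by
      rw [Finset.range_orderEmbOfFin]; exact hi
    obtain ⟨j, rfl⟩ := this
    exact ⟨j, mem_univ _, rfl⟩
  · rintro ⟨j, _, rfl⟩
    exact ⟨_, Finset.orderEmbOfFin_mem I hIr j, rfl⟩

/-- A good list is homogeneous. -/
lemma homog_of_good {ι σ : Type*} (d : ι → V → V → ℕ) (f : σ → V → ℕ) (hd : ∀ i, IsTree (d i))
    {r : ℕ} {κ : Type*} (c : Finset V → κ)
    (hdet : ∀ x y : Fin r ↪ V,
      (∀ i p q s u, d i (x p) (x q) < d i (x s) (x u) ↔ d i (y p) (y q) < d i (y s) (y u)) →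
      (∀ j p q, f j (x p) < f j (x q) ↔ f j (y p) < f j (y q)) →
      c (univ.map x) = c (univ.map y))
    (l : List V) (hnd : l.Nodup) (hgd : ∀ i, GoodT (d i) l) (hgf : ∀ j, WGoodF (f j) l) :
    ∃ H : Finset V, H.card = l.length ∧ (∀ v ∈ H, v ∈ l) ∧
      ∀ A B : Finset V, A ⊆ H → B ⊆ H → A.card = r → B.card = r → c A = c B := by
  classical
  set X : Fin l.length → V := fun i => l[i] with hXdef
  have hX : Function.Injective X := by
    intro i j hij
    exact Fin.ext ((List.Nodup.getElem_inj_iff hnd).1 hij)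
  refine ⟨univ.map ⟨X, hX⟩, by rw [card_map, card_univ, Fintype.card_fin], ?_, ?_⟩
  · intro v hv
    rw [mem_map] at hv
    obtain ⟨i, _, rfl⟩ := hv
    exact List.getElem_mem _
  · intro A B hA hB hAr hBr
    obtain ⟨a, ha, rfl⟩ := exists_enum hX A hA hAr
    obtain ⟨b, hb, rfl⟩ := exists_enum hX B hB hBr
    refine hdet _ _ (fun i p q s u => ?_) (fun j p q => ?_)
    · exact (GoodT.goodX (hd i) (hgd i)).iso (hd i) hX ha hb p q s u
    · exact (hgf j).monX.iso ha hb p q

end Pool.Agent.N440.Trees
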