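import Pool.Agent.N440.Trees.Basic

/-!
# The lower bound for trees and orders: nested lexicographic products
-/

set_option autoImplicit false

namespace Pool.Agent.N440.Trees

open Finset

variable {V : Type*}

/-- `A` is forward for `d` with respect to the order `r`. -/
def FwdR (r : V → V → Prop) (d : V → V → ℕ) (A : Finset V) : Prop :=
  ∀ x ∈ A, ∀ y ∈ A, ∀ z ∈ A, r x y → r y z → d y z < d x y

/-- `A` is backward for `d` with respect to the order `r`. -/
def BwdR (r : V → V → Prop) (d : V → V → ℕ) (A : Finset V) : Prop :=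
  ∀ x ∈ A, ∀ y ∈ A, ∀ z ∈ A, r x y → r y z → d x y < d y z

/-- All distances are equal. -/
def StarR (r : V → V → Prop) (d : V → V → ℕ) (A : Finset V) : Prop :=
  ∀ x ∈ A, ∀ y ∈ A, ∀ z ∈ A, r x y → r y z → d x y = d y z ∧ d x z = d x y

/-- `A` is good for `d`. -/
def GoodR (r : V → V → Prop) (d : V → V → ℕ) (A : Finset V) : Prop :=
  FwdR r d A ∨ BwdR r d A ∨ StarR r d A

/-- The order given by an injective function. -/
def ordF (f : V → ℕ) (x y : V) : Prop := f x < f y

section product

variable {ι : Type} {M V : Type}

/-- distances of the product -/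
def prodD [DecidableEq M] (H : ℕ) (dM : M → M → ℕ) (d : V → V → ℕ) (u v : M × V) : ℕ :=
  if u.1 = v.1 then d u.2 v.2 else H + dM u.1 v.1

/-- order of the product -/
def prodF (K : ℕ) (fM : M → ℕ) (f : V → ℕ) (u : M × V) : ℕ := fM u.1 * K + f u.2

variable [DecidableEq M]

lemma prodD_eq {H : ℕ} {dM : M → M → ℕ} {d : V → V → ℕ} {u v : M × V} (h : u.1 = v.1) :
    prodD H dM d u v = d u.2 v.2 := by rw [prodD, if_pos h]

lemma prodD_ne {H : ℕ} {dM : M → M → ℕ} {d : V → V → ℕ} {u v : M × V} (h : u.1 ≠ v.1) :
    prodD H dM d u v = H + dM u.1 v.1 := by rw [prodD, if_neg h]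

lemma prodD_isTree {H : ℕ} {dM : M → M → ℕ} {d : V → V → ℕ} (hM : IsTree dM) (hd : IsTree d)
    (hH : ∀ x y, d x y ≤ H) : IsTree (prodD H dM d) where
  self x := by rw [prodD_eq rfl]; exact hd.self _
  pos x y hxy := by
    by_cases h : x.1 = y.1
    · rw [prodD_eq h]
      exact hd.pos _ _ fun h2 => hxy (Prod.ext h h2)
    · rw [prodD_ne h]
      have := hM.pos _ _ h
      omega
  symm x y := by
    by_cases h : x.1 = y.1
    · rw [prodD_eq h, prodD_eq h.symm, hd.symm]
    · rw [prodD_ne h, prodD_ne (Ne.symm h), hM.symm]
  ultra x y z := by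
    by_cases hxy : x.1 = y.1
    · by_cases hyz : y.1 = z.1
      · rw [prodD_eq hxy, prodD_eq hyz, prodD_eq (hxy.trans hyz)]
        exact hd.ultra _ _ _
      · have hxz : x.1 ≠ z.1 := fun h => hyz (hxy ▸ h)
        rw [prodD_ne hxz, prodD_ne hyz, hxy]
        exact le_max_right _ _
    · by_cases hyz : y.1 = z.1
      · have hxz : x.1 ≠ z.1 := fun h => hxy (hyz ▸ h)
        rw [prodD_ne hxz, prodD_ne hxy, hyz]
        exact le_max_left _ _
      · by_cases hxz : x.1 = z.1
        · rw [prodD_eq hxz, prodD_ne hxy]
          have := hH x.2 z.2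
          omega
        · rw [prodD_ne hxz, prodD_ne hxy, prodD_ne hyz]
          have := hM.ultra x.1 y.1 z.1
          omega

lemma prodD_isBin {H : ℕ} {dM : M → M → ℕ} {d : V → V → ℕ} (hM : IsTree dM)
    (hMb : IsBin dM) (hdb : IsBin d) (hH : ∀ x y, d x y ≤ H) : IsBin (prodD H dM d) := by
  intro x y z hxy hyz hxz ⟨h1, h2⟩
  by_cases exy : x.1 = y.1
  · by_cases eyz : y.1 = z.1
    · have exz : x.1 = z.1 := exy.trans eyz
      rw [prodD_eq exy, prodD_eq eyz] at h1
      rw [prodD_eq exy, prodD_eq exz] at h2
      exact hdb x.2 y.2 z.2 (fun h => hxy (Prod.ext exy h)) (fun h => hyz (Prod.ext eyz h))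
        (fun h => hxz (Prod.ext exz h)) ⟨h1, h2⟩
    · rw [prodD_eq exy, prodD_ne eyz] at h1
      have h3 := hH x.2 y.2
      have h4 := hM.pos _ _ eyz
      omega
  · by_cases eyz : y.1 = z.1
    · rw [prodD_ne exy, prodD_eq eyz] at h1
      have h3 := hH y.2 z.2
      have h4 := hM.pos _ _ exy
      omega
    · by_cases exz : x.1 = z.1
      · rw [prodD_ne exy, prodD_eq exz] at h2
        have h3 := hH x.2 z.2
        have h4 := hM.pos _ _ exy
        omega
      · rw [prodD_ne exy, prodD_ne eyz] at h1
        rw [prodD_ne exy, prodD_ne exz] at h2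
        exact hMb x.1 y.1 z.1 exy eyz exz ⟨by omega, by omega⟩

omit [DecidableEq M] in
lemma prodF_lt_iff {K : ℕ} {fM : M → ℕ} {f : V → ℕ} (hfM : Function.Injective fM)
    (hK : ∀ x, f x < K) {u v : M × V} :
    prodF K fM f u < prodF K fM f v ↔ fM u.1 < fM v.1 ∨ (u.1 = v.1 ∧ f u.2 < f v.2) := by
  have hu := hK u.2
  have hv := hK v.2
  unfold prodF
  constructor
  · intro h
    rcases lt_trichotomy (fM u.1) (fM v.1) with h1 | h1 | h1
    · exact Or.inl h1
    · exact Or.inr ⟨hfM h1, by rw [h1] at h; omega⟩
    · exfalso
      have : (fM v.1 + 1) * K ≤ fM u.1 * K := Nat.mul_le_mul_right _ h1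
      rw [add_mul] at this
      omega
  · rintro (h1 | ⟨h1, h2⟩)
    · have : (fM u.1 + 1) * K ≤ fM v.1 * K := Nat.mul_le_mul_right _ h1
      rw [add_mul] at this
      omega
    · rw [h1]; omega

omit [DecidableEq M] in
lemma prodF_injective {K : ℕ} {fM : M → ℕ} {f : V → ℕ} (hfM : Function.Injective fM)
    (hf : Function.Injective f) (hK : ∀ x, f x < K) : Function.Injective (prodF K fM f) := by
  intro u v h
  have h1 : ¬ prodF K fM f u < prodF K fM f v := by omega
  have h2 : ¬ prodF K fM f v < prodF K fM f u := by omega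
  rw [prodF_lt_iff hfM hK] at h1 h2
  push Not at h1 h2
  have h3 : u.1 = v.1 := hfM (by omega)
  exact Prod.ext h3 (hf (by have := h1.2 h3; have := h2.2 h3.symm; omega))

/-- The counting lemma for forward sets, for an order `r'` on the product which is lexicographic. -/
lemma fwd_count {H : ι → ℕ} {dM : ι → M → M → ℕ} {d : ι → V → V → ℕ}
    (hH : ∀ i x y, d i x y ≤ H i) [Nonempty ι]
    {rM : M → M → Prop} {r : V → V → Prop} {r' : M × V → M × V → Prop}
    (hr' : ∀ u v, r' u v ↔ rM u.1 v.1 ∨ (u.1 = v.1 ∧ r u.2 v.2))
    (htri : ∀ u v, u ≠ v → r' u v ∨ r' v u)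
    (hmin : ∀ A : Finset (M × V), A.Nonempty → ∃ w ∈ A, ∀ u ∈ A, u ≠ w → r' w u)
    (hF : ∀ x y z, rM x y → rM y z → ∃ i, ¬ (dM i y z < dM i x y)) (D : ℕ)
    (hD : ∀ B : Finset V, (∀ i, FwdR r (d i) B) → B.card ≤ D) (A : Finset (M × V))
    (hA : ∀ i, FwdR r' (prodD (H i) (dM i) (d i)) A) : A.card ≤ D + 1 := by
  classical
  rcases A.eq_empty_or_nonempty with rfl | hne
  · simp
  obtain ⟨w, hw, hwmin⟩ := hmin A hne
  -- the other points have the same first coordinate
  have key : ∀ u ∈ A.erase w, ∀ v ∈ A.erase w, r' u v → u.1 = v.1 := by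
    intro u hu v hv huv
    rw [mem_erase] at hu hv
    by_contra hne1
    have hwu := hwmin u hu.2 hu.1
    have huM : rM u.1 v.1 := by
      rcases (hr' u v).1 huv with h | h
      · exact h
      · exact absurd h.1 hne1
    have hlt : ∀ i, prodD (H i) (dM i) (d i) u v < prodD (H i) (dM i) (d i) w u :=
      fun i => hA i w hw u hu.2 v hv.2 hwu huv
    have hwu1 : w.1 ≠ u.1 := by
      intro he
      obtain ⟨i⟩ := (inferInstance : Nonempty ι)
      have h1 := hlt i
      rw [prodD_ne hne1, prodD_eq he] at h1
      have := hH i w.2 u.2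
      omega
    have hwM : rM w.1 u.1 := by
      rcases (hr' w u).1 hwu with h | h
      · exact h
      · exact absurd h.1 hwu1
    obtain ⟨i, hi⟩ := hF _ _ _ hwM huM
    have h1 := hlt i
    rw [prodD_ne hne1, prodD_ne hwu1] at h1
    omega
  have key2 : ∀ u ∈ A.erase w, ∀ v ∈ A.erase w, u.1 = v.1 := by
    intro u hu v hv
    by_cases huv : u = v
    · rw [huv]
    · rcases htri u v huv with h | h
      · exact key u hu v hv h
      · exact (key v hv u hu h).symm
  have hinj : Set.InjOn Prod.snd (A.erase w : Set (M × V)) := by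
    intro u hu v hv huv
    exact Prod.ext (key2 u hu v hv) huv
  have h1 : ((A.erase w).image Prod.snd).card = (A.erase w).card := card_image_of_injOn hinj
  have h2 := hD ((A.erase w).image Prod.snd) (by
    intro i x hx y hy z hz hxy hyz
    rw [mem_image] at hx hy hz
    obtain ⟨u, hu, rfl⟩ := hx
    obtain ⟨v, hv, rfl⟩ := hy
    obtain ⟨t, ht, rfl⟩ := hz
    have e1 := key2 u hu v hv
    have e2 := key2 v hv t ht
    have h3 := hA i u (mem_of_mem_erase hu) v (mem_of_mem_erase hv) t (mem_of_mem_erase ht)
      ((hr' u v).2 (Or.inr ⟨e1, hxy⟩)) ((hr' v t).2 (Or.inr ⟨e2, hyz⟩))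
    rwa [prodD_eq e1, prodD_eq e2] at h3)
  rw [h1, card_erase_of_mem hw] at h2
  omega

end product

lemma bwdR_iff {r : V → V → Prop} {d : V → V → ℕ} (hd : IsTree d) {A : Finset V} :
    BwdR r d A ↔ FwdR (fun x y => r y x) d A := by
  constructor
  · intro h x hx y hy z hz hyx hzy
    have := h z hz y hy x hx hzy hyx
    rwa [hd.symm z y, hd.symm y x] at this
  · intro h x hx y hy z hz hxy hyz
    have := h z hz y hy x hx hyz hxy
    rwa [hd.symm z y, hd.symm y x] at this

/-- Nested lexicographic products. -/
lemma nested {ι : Type} [Nonempty ι] {M : Type} [Fintype M] (fM : M → ℕ)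
    (hfM : Function.Injective fM) (dM : ι → M → M → ℕ) (htree : ∀ i, IsTree (dM i)) (n : ℕ)
    (hgood : ∀ A : Finset M, (∀ i, GoodR (ordF fM) (dM i) A) → A.card ≤ n)
    (hF : ∀ x y z, fM x < fM y → fM y < fM z → ∃ i, ¬ (dM i y z < dM i x y))
    (hB : ∀ x y z, fM x < fM y → fM y < fM z → ∃ i, ¬ (dM i x y < dM i y z)) (D : ℕ) :
    ∃ (V : Type) (_ : Fintype V) (f : V → ℕ) (d : ι → V → V → ℕ), Function.Injective f ∧
      (∀ i, IsTree (d i)) ∧ (∀ i, IsBin (dM i) → IsBin (d i)) ∧
      Fintype.card V = Fintype.card M ^ D ∧
      (∀ A : Finset V, (∀ i, FwdR (ordF f) (d i) A) → A.card ≤ D + 1) ∧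
      (∀ A : Finset V, (∀ i, BwdR (ordF f) (d i) A) → A.card ≤ D + 1) ∧
      (∀ A : Finset V, (∀ i, GoodR (ordF f) (d i) A) → A.card ≤ max n (D + 1)) := by
  classical
  induction D with
  | zero =>
    refine ⟨Unit, inferInstance, fun _ => 0, fun _ _ _ => 0, fun _ _ _ => rfl, ?_, ?_, by simp,
      ?_, ?_, ?_⟩
    · intro i
      exact ⟨fun _ => rfl, fun x y h => absurd (Subsingleton.elim x y) h, fun _ _ => rfl,
        fun _ _ _ => by simp⟩
    · intro i _ x y z h
      exact absurd (Subsingleton.elim x y) h
    · intro A _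
      exact (card_le_univ A).trans (by simp)
    · intro A _
      exact (card_le_univ A).trans (by simp)
    · intro A _
      exact ((card_le_univ A).trans (by simp)).trans (le_max_right _ _)
  | succ D ih =>
    obtain ⟨V, hV, f, d, hf, hd, hbin, hcard, hcF, hcB, hcG⟩ := ih
    set H : ι → ℕ := fun i => univ.sup fun p : V × V => d i p.1 p.2 with hHdef
    have hH : ∀ i x y, d i x y ≤ H i := fun i x y =>
      le_sup (f := fun p : V × V => d i p.1 p.2) (mem_univ (x, y))
    set K : ℕ := (univ.sup fun x : V => f x) + 1 with hKdef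
    have hK : ∀ x, f x < K := fun x => Nat.lt_succ_of_le (le_sup (f := fun x => f x) (mem_univ x))
    set f' := prodF K fM f with hf'
    set d' : ι → M × V → M × V → ℕ := fun i => prodD (H i) (dM i) (d i) with hd'
    have hf'inj : Function.Injective f' := prodF_injective hfM hf hK
    have hd'tree : ∀ i, IsTree (d' i) := fun i => prodD_isTree (htree i) (hd i) (hH i)
    have hlex : ∀ u v : M × V, ordF f' u v ↔ ordF fM u.1 v.1 ∨ (u.1 = v.1 ∧ ordF f u.2 v.2) :=
      fun u v => prodF_lt_iff hfM hK
    have hlex' : ∀ u v : M × V, (fun x y => ordF f' y x) u v ↔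
        (fun x y => ordF fM y x) u.1 v.1 ∨ (u.1 = v.1 ∧ (fun x y => ordF f y x) u.2 v.2) := by
      intro u v
      show ordF f' v u ↔ ordF fM v.1 u.1 ∨ (u.1 = v.1 ∧ ordF f v.2 u.2)
      rw [hlex v u]
      constructor
      · rintro (h | h)
        · exact Or.inl h
        · exact Or.inr ⟨h.1.symm, h.2⟩
      · rintro (h | h)
        · exact Or.inl h
        · exact Or.inr ⟨h.1.symm, h.2⟩
    have htri : ∀ u v : M × V, u ≠ v → ordF f' u v ∨ ordF f' v u := by
      intro u v huv
      have : f' u ≠ f' v := fun h => huv (hf'inj h)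
      unfold ordF
      omega
    have hFc : ∀ A : Finset (M × V), (∀ i, FwdR (ordF f') (d' i) A) → A.card ≤ D + 1 + 1 :=
      fun A hA => fwd_count (H := H) (dM := dM) (d := d) (rM := ordF fM) (r := ordF f)
        (r' := ordF f') hH hlex htri
        (by
          intro A hne
          obtain ⟨w, hw, hmin⟩ := exists_min_image A f' hne
          refine ⟨w, hw, fun u hu huw => ?_⟩
          have h1 := hmin u hu
          have h2 : f' u ≠ f' w := fun h => huw (hf'inj h)
          unfold ordF
          omega)
        hF (D + 1) hcF A hA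
    have hBc : ∀ A : Finset (M × V), (∀ i, BwdR (ordF f') (d' i) A) → A.card ≤ D + 1 + 1 := by
      intro A hA
      refine fwd_count (H := H) (dM := dM) (d := d) (rM := fun x y => ordF fM y x)
        (r := fun x y => ordF f y x)
        (r' := fun x y => ordF f' y x) hH hlex' (fun u v huv => (htri u v huv).symm)
        (by
          intro A hne
          obtain ⟨w, hw, hmax⟩ := exists_max_image A f' hne
          refine ⟨w, hw, fun u hu huw => ?_⟩
          have h1 := hmax u hu
          have h2 : f' u ≠ f' w := fun h => huw (hf'inj h)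
          show ordF f' u w
          unfold ordF
          omega)
        (by
          intro x y z hyx hzy
          obtain ⟨i, hi⟩ := hB z y x hzy hyx
          exact ⟨i, by rwa [(htree i).symm z y, (htree i).symm y x] at hi⟩) (D + 1)
        (fun B hB => hcB B fun i => (bwdR_iff (hd i)).2 (hB i)) A
        (fun i => (bwdR_iff (hd'tree i)).1 (hA i))
    refine ⟨M × V, inferInstance, f', d', hf'inj, hd'tree, ?_, ?_, hFc, hBc, ?_⟩
    · intro i hi
      exact prodD_isBin (htree i) hi (hbin i hi) (hH i)
    · rw [Fintype.card_prod, hcard, pow_succ, mul_comm]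
    · intro A hA
      by_cases hmix : ∃ u ∈ A, ∃ v ∈ A, ∃ w ∈ A, ordF f' u v ∧ u.1 = v.1 ∧ w.1 ≠ u.1
      · obtain ⟨u, hu, v, hv, w, hw, huv, he, hwu⟩ := hmix
        have hwv : w.1 ≠ v.1 := he ▸ hwu
        have hduv : ∀ i, d' i u v ≤ H i := fun i => by
          show prodD (H i) (dM i) (d i) u v ≤ H i
          rw [prodD_eq he]; exact hH i _ _
        have hdwu : ∀ i, H i < d' i w u := fun i => by
          show H i < prodD (H i) (dM i) (d i) w u
          rw [prodD_ne hwu]; have := (htree i).pos _ _ hwu; omega
        have hdvw : ∀ i, H i < d' i v w := fun i => by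
          show H i < prodD (H i) (dM i) (d i) v w
          rw [prodD_ne (Ne.symm hwv)]; have := (htree i).pos _ _ (Ne.symm hwv); omega
        refine le_trans ?_ (le_max_right _ _)
        have hfne : fM w.1 ≠ fM u.1 := fun h => hwu (hfM h)
        rcases lt_or_gt_of_ne hfne with hlt | hgt
        · -- all are forward
          refine hFc A fun i => ?_
          have h1 : ordF f' w u := (hlex w u).2 (Or.inl hlt)
          rcases hA i with h | h | h
          · exact h
          · exfalso
            have := h w hw u hu v hv h1 huv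
            have := hduv i
            have := hdwu i
            omega
          · exfalso
            have := (h w hw u hu v hv h1 huv).1
            have := hduv i
            have := hdwu i
            omega
        · refine hBc A fun i => ?_
          have h1 : ordF f' v w := (hlex v w).2 (Or.inl (by rw [← he]; exact hgt))
          rcases hA i with h | h | h
          · exfalso
            have := h u hu v hv w hw huv h1
            have := hduv i
            have := hdvw i
            omega
          · exact h
          · exfalso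
            have := (h u hu v hv w hw huv h1).1
            have := hduv i
            have := hdvw i
            omega
      · push Not at hmix
        by_cases hsame : ∃ u ∈ A, ∃ v ∈ A, u ≠ v ∧ u.1 = v.1
        · -- all first coordinates are equal
          obtain ⟨u, hu, v, hv, huv, he⟩ := hsame
          have hall : ∀ w ∈ A, w.1 = u.1 := by
            intro w hw
            rcases htri u v huv with h | h
            · exact hmix u hu v hv w hw h he
            · rw [hmix v hv u hu w hw h he.symm, he]
          have hall2 : ∀ x ∈ A, ∀ y ∈ A, x.1 = y.1 := fun x hx y hy =>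
            (hall x hx).trans (hall y hy).symm
          have hinj : Set.InjOn Prod.snd (A : Set (M × V)) := by
            intro x hx y hy hxy
            exact Prod.ext (hall2 x hx y hy) hxy
          have h1 : (A.image Prod.snd).card = A.card := card_image_of_injOn hinj
          rw [← h1]
          refine (hcG (A.image Prod.snd) fun i => ?_).trans (max_le_max le_rfl (by omega))
          rcases hA i with h | h | h
          · refine Or.inl ?_
            intro x hx y hy z hz hxy hyz
            rw [mem_image] at hx hy hz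
            obtain ⟨a, ha, rfl⟩ := hx
            obtain ⟨b, hb, rfl⟩ := hy
            obtain ⟨c, hc, rfl⟩ := hz
            have e1 := hall2 a ha b hb
            have e2 := hall2 b hb c hc
            have h3 := h a ha b hb c hc ((hlex a b).2 (Or.inr ⟨e1, hxy⟩))
              ((hlex b c).2 (Or.inr ⟨e2, hyz⟩))
            simp only [hd'] at h3
            rwa [prodD_eq e1, prodD_eq e2] at h3
          · refine Or.inr (Or.inl ?_)
            intro x hx y hy z hz hxy hyz
            rw [mem_image] at hx hy hz
            obtain ⟨a, ha, rfl⟩ := hx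
            obtain ⟨b, hb, rfl⟩ := hy
            obtain ⟨c, hc, rfl⟩ := hz
            have e1 := hall2 a ha b hb
            have e2 := hall2 b hb c hc
            have h3 := h a ha b hb c hc ((hlex a b).2 (Or.inr ⟨e1, hxy⟩))
              ((hlex b c).2 (Or.inr ⟨e2, hyz⟩))
            simp only [hd'] at h3
            rwa [prodD_eq e1, prodD_eq e2] at h3
          · refine Or.inr (Or.inr ?_)
            intro x hx y hy z hz hxy hyz
            rw [mem_image] at hx hy hz
            obtain ⟨a, ha, rfl⟩ := hx
            obtain ⟨b, hb, rfl⟩ := hy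
            obtain ⟨c, hc, rfl⟩ := hz
            have e1 := hall2 a ha b hb
            have e2 := hall2 b hb c hc
            have h3 := h a ha b hb c hc ((hlex a b).2 (Or.inr ⟨e1, hxy⟩))
              ((hlex b c).2 (Or.inr ⟨e2, hyz⟩))
            simp only [hd'] at h3
            rwa [prodD_eq e1, prodD_eq e2, prodD_eq (e1.trans e2)] at h3
        · push Not at hsame
          have hinj : Set.InjOn Prod.fst (A : Set (M × V)) := by
            intro x hx y hy hxy
            by_contra hne
            exact hsame x hx y hy hne hxy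
          have h1 : (A.image Prod.fst).card = A.card := card_image_of_injOn hinj
          rw [← h1]
          refine (hgood (A.image Prod.fst) fun i => ?_).trans (le_max_left _ _)
          rcases hA i with h | h | h
          · refine Or.inl ?_
            intro x hx y hy z hz hxy hyz
            rw [mem_image] at hx hy hz
            obtain ⟨a, ha, rfl⟩ := hx
            obtain ⟨b, hb, rfl⟩ := hy
            obtain ⟨c, hc, rfl⟩ := hz
            have e1 : a.1 ≠ b.1 := fun h => absurd hxy (by unfold ordF; rw [h]; omega)
            have e2 : b.1 ≠ c.1 := fun h => absurd hyz (by unfold ordF; rw [h]; omega)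
            have h3 := h a ha b hb c hc ((hlex a b).2 (Or.inl hxy))
              ((hlex b c).2 (Or.inl hyz))
            simp only [hd'] at h3
            rw [prodD_ne e1, prodD_ne e2] at h3
            omega
          · refine Or.inr (Or.inl ?_)
            intro x hx y hy z hz hxy hyz
            rw [mem_image] at hx hy hz
            obtain ⟨a, ha, rfl⟩ := hx
            obtain ⟨b, hb, rfl⟩ := hy
            obtain ⟨c, hc, rfl⟩ := hz
            have e1 : a.1 ≠ b.1 := fun h => absurd hxy (by unfold ordF; rw [h]; omega)
            have e2 : b.1 ≠ c.1 := fun h => absurd hyz (by unfold ordF; rw [h]; omega)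
            have h3 := h a ha b hb c hc ((hlex a b).2 (Or.inl hxy))
              ((hlex b c).2 (Or.inl hyz))
            simp only [hd'] at h3
            rw [prodD_ne e1, prodD_ne e2] at h3
            omega
          · refine Or.inr (Or.inr ?_)
            intro x hx y hy z hz hxy hyz
            rw [mem_image] at hx hy hz
            obtain ⟨a, ha, rfl⟩ := hx
            obtain ⟨b, hb, rfl⟩ := hy
            obtain ⟨c, hc, rfl⟩ := hz
            have e1 : a.1 ≠ b.1 := fun h => absurd hxy (by unfold ordF; rw [h]; omega)
            have e2 : b.1 ≠ c.1 := fun h => absurd hyz (by unfold ordF; rw [h]; omega)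
            have e3 : a.1 ≠ c.1 := fun h => by
              unfold ordF at hxy hyz
              rw [h] at hxy
              omega
            have h3 := h a ha b hb c hc ((hlex a b).2 (Or.inl hxy))
              ((hlex b c).2 (Or.inl hyz))
            simp only [hd'] at h3
            rw [prodD_ne e1, prodD_ne e2, prodD_ne e3] at h3
            omega

end Pool.Agent.N440.Trees
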