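import Pool.Agent.N440.Trees.Main

/-!
# Colourings without large homogeneous sets which are determined by trees and orders
-/

set_option autoImplicit false

namespace Pool.Agent.N440.Trees

open Finset
open scoped List

section maps

variable {V : Type} {r : ℕ}

lemma fwd_map_iff {f : V → ℕ} {d : V → V → ℕ} {x y : Fin r ↪ V}
    (hd : ∀ p q s u, d (x p) (x q) < d (x s) (x u) ↔ d (y p) (y q) < d (y s) (y u))
    (hf : ∀ p q, f (x p) < f (x q) ↔ f (y p) < f (y q)) :
    FwdR (ordF f) d (univ.map x) ↔ FwdR (ordF f) d (univ.map y) := by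
  have key : ∀ z : Fin r ↪ V, FwdR (ordF f) d (univ.map z) ↔
      ∀ p q s, f (z p) < f (z q) → f (z q) < f (z s) → d (z q) (z s) < d (z p) (z q) := by
    intro z
    constructor
    · intro h p q s h1 h2
      exact h (z p) (mem_map_of_mem z (mem_univ _)) (z q) (mem_map_of_mem z (mem_univ _)) (z s)
        (mem_map_of_mem z (mem_univ _)) h1 h2
    · intro h a ha b hb c hc h1 h2
      rw [mem_map] at ha hb hc
      obtain ⟨p, _, rfl⟩ := ha
      obtain ⟨q, _, rfl⟩ := hb
      obtain ⟨s, _, rfl⟩ := hc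
      exact h p q s h1 h2
  rw [key, key]
  simp only [hd, hf]

lemma bwd_map_iff {f : V → ℕ} {d : V → V → ℕ} {x y : Fin r ↪ V}
    (hd : ∀ p q s u, d (x p) (x q) < d (x s) (x u) ↔ d (y p) (y q) < d (y s) (y u))
    (hf : ∀ p q, f (x p) < f (x q) ↔ f (y p) < f (y q)) :
    BwdR (ordF f) d (univ.map x) ↔ BwdR (ordF f) d (univ.map y) := by
  have key : ∀ z : Fin r ↪ V, BwdR (ordF f) d (univ.map z) ↔
      ∀ p q s, f (z p) < f (z q) → f (z q) < f (z s) → d (z p) (z q) < d (z q) (z s) := by
    intro z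
    constructor
    · intro h p q s h1 h2
      exact h (z p) (mem_map_of_mem z (mem_univ _)) (z q) (mem_map_of_mem z (mem_univ _)) (z s)
        (mem_map_of_mem z (mem_univ _)) h1 h2
    · intro h a ha b hb c hc h1 h2
      rw [mem_map] at ha hb hc
      obtain ⟨p, _, rfl⟩ := ha
      obtain ⟨q, _, rfl⟩ := hb
      obtain ⟨s, _, rfl⟩ := hc
      exact h p q s h1 h2
  rw [key, key]
  simp only [hd, hf]

lemma star_map_iff {f : V → ℕ} {d : V → V → ℕ} {x y : Fin r ↪ V}
    (hd : ∀ p q s u, d (x p) (x q) < d (x s) (x u) ↔ d (y p) (y q) < d (y s) (y u))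
    (hf : ∀ p q, f (x p) < f (x q) ↔ f (y p) < f (y q)) :
    StarR (ordF f) d (univ.map x) ↔ StarR (ordF f) d (univ.map y) := by
  have key : ∀ z : Fin r ↪ V, StarR (ordF f) d (univ.map z) ↔
      ∀ p q s, f (z p) < f (z q) → f (z q) < f (z s) → d (z p) (z q) = d (z q) (z s) ∧
        d (z p) (z s) = d (z p) (z q) := by
    intro z
    constructor
    · intro h p q s h1 h2
      exact h (z p) (mem_map_of_mem z (mem_univ _)) (z q) (mem_map_of_mem z (mem_univ _)) (z s)
        (mem_map_of_mem z (mem_univ _)) h1 h2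
    · intro h a ha b hb c hc h1 h2
      rw [mem_map] at ha hb hc
      obtain ⟨p, _, rfl⟩ := ha
      obtain ⟨q, _, rfl⟩ := hb
      obtain ⟨s, _, rfl⟩ := hc
      exact h p q s h1 h2
  have heq : ∀ a b : ℕ, a = b ↔ ¬ a < b ∧ ¬ b < a := fun a b => by omega
  rw [key, key]
  simp only [heq, hd, hf]

end maps

/-- The family of all trees. -/
lemma append_props {V : Type} {k₁ k₂ : ℕ} {d₁ : Fin k₁ → V → V → ℕ} {d₂ : Fin k₂ → V → V → ℕ}
    (h1 : ∀ i, IsTree (d₁ i)) (h2 : ∀ i, IsTree (d₂ i) ∧ IsBin (d₂ i)) :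
    (∀ i, IsTree (Fin.append d₁ d₂ i)) ∧ (∀ i, k₁ ≤ i.val → IsBin (Fin.append d₁ d₂ i)) := by
  constructor
  · intro i
    refine Fin.addCases (fun i => ?_) (fun i => ?_) i
    · rw [Fin.append_left]; exact h1 i
    · rw [Fin.append_right]; exact (h2 i).1
  · intro i
    refine Fin.addCases (fun i => ?_) (fun i => ?_) i
    · intro h
      have := i.2
      simp at h
      omega
    · intro _
      rw [Fin.append_right]; exact (h2 i).2

lemma Low_all' {n : ℕ} (hn : 2 ≤ n) (k₁ k₂ : ℕ) :
    ∃ (V : Type) (_ : Fintype V) (f : V → ℕ) (d : Fin (k₁ + k₂) → V → V → ℕ),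
    Function.Injective f ∧ (∀ i, IsTree (d i)) ∧ (∀ i, k₁ ≤ i.val → IsBin (d i)) ∧
    Fintype.card V = (if Even k₂ then n else 2) ^ ((n - 1) ^ (k₁ + (k₂ + 1) / 2)) ∧
    ∀ A : Finset V, (∀ i, GoodR (ordF f) (d i) A) → A.card ≤ n := by
  obtain ⟨V, hV, f, d₁, d₂, hf, h1, h2, hcard, hg⟩ := Low_all hn k₁ k₂
  have h3 := append_props h1 h2
  refine ⟨V, hV, f, Fin.append d₁ d₂, hf, h3.1, h3.2, hcard, fun A hA => hg A (fun i => ?_)
    (fun i => ?_)⟩
  · have := hA (Fin.castAdd k₂ i)
    rwa [Fin.append_left] at this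
  · have := hA (Fin.natAdd k₁ i)
    rwa [Fin.append_right] at this

/-- Uniformity at least four: two colours. -/
theorem lower_four (k₁ k₂ r : ℕ) (hr : 4 ≤ r) : ∃ n₀ : ℕ, ∀ n, n₀ ≤ n →
    ∃ (V : Type) (_ : Fintype V) (f : V → ℕ) (d : Fin (k₁ + k₂) → V → V → ℕ)
      (c : Finset V → Bool),
    Function.Injective f ∧ (∀ i, IsTree (d i)) ∧ (∀ i, k₁ ≤ i.val → IsBin (d i)) ∧
    Fintype.card V = (if Even k₂ then n else 2) ^ ((n - 1) ^ (k₁ + (k₂ + 1) / 2)) ∧
    (∀ x y : Fin r ↪ V,
      (∀ i p q s u, d i (x p) (x q) < d i (x s) (x u) ↔ d i (y p) (y q) < d i (y s) (y u)) →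
      (∀ p q, f (x p) < f (x q) ↔ f (y p) < f (y q)) →
      c (univ.map x) = c (univ.map y)) ∧
    ∀ H : Finset V, (∀ A B : Finset V, A ⊆ H → B ⊆ H → A.card = r → B.card = r →
      c A = c B) → H.card ≤ n := by
  classical
  refine ⟨max (2 ^ (cst (k₁ + k₂) 1 * ordr k₁ k₂ r)) (max r 2), fun n hn => ?_⟩
  have hn1 : 2 ^ (cst (k₁ + k₂) 1 * ordr k₁ k₂ r) ≤ n := (le_max_left _ _).trans hn
  have hn2 : r ≤ n := (le_max_left _ _).trans ((le_max_right _ _).trans hn)
  have hn3 : 2 ≤ n := (le_max_right _ _).trans ((le_max_right _ _).trans hn)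
  obtain ⟨V, hV, f, d, hf, hd, hb, hcard, hg⟩ := Low_all' hn3 k₁ k₂
  refine ⟨V, hV, f, d, fun A => decide (∀ i, GoodR (ordF f) (d i) A), hf, hd, hb, hcard, ?_, ?_⟩
  · intro x y h1 h2
    have h3 : (∀ i, GoodR (ordF f) (d i) (univ.map x)) ↔
        (∀ i, GoodR (ordF f) (d i) (univ.map y)) := by
      refine forall_congr' fun i => ?_
      unfold GoodR
      rw [fwd_map_iff (h1 i) h2, bwd_map_iff (h1 i) h2, star_map_iff (h1 i) h2]
    simp only [h3]
  · intro H hH
    by_contra hcon
    push Not at hcon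
    -- there is a good `r`-subset
    obtain ⟨l, hl, hnd, hlH, hgd, hgf⟩ := exists_good k₁ k₂ 1 V d (fun _ : Fin 1 => f) r H hd hb
      (fun _ => hf) (by omega) (by omega)
    have hA : l.toFinset ⊆ H := fun v hv => hlH v (List.mem_toFinset.1 hv)
    have hAr : l.toFinset.card = r := by rw [List.toFinset_card_of_nodup hnd, hl]
    have hAg : ∀ i, GoodR (ordF f) (d i) l.toFinset := fun i => GoodR_of_list (hd i) (hgf 0) (hgd i)
    -- all `r`-subsets are good
    have hall : ∀ B ⊆ H, B.card = r → ∀ i, GoodR (ordF f) (d i) B := by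
      intro B hB hBr
      have h1 := hH _ B hA hB hAr hBr
      simp only [decide_eq_decide] at h1
      exact h1.1 hAg
    have hgood : ∀ i, GoodR (ordF f) (d i) H := by
      intro i
      refine good_of_four fun Q hQ hQ4 => ?_
      obtain ⟨B, hQB, hBH, hBr⟩ := exists_subsuperset_card_eq hQ (hQ4.trans hr) (by omega)
      exact (hall B hBH hBr i).mono hQB
    have := hg H hgood
    omega

lemma exists_min_ord {V : Type} {f : V → ℕ} (hf : Function.Injective f) {A : Finset V}
    (hA : A.Nonempty) : ∃ x ∈ A, ∀ y ∈ A, y ≠ x → f x < f y := by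
  obtain ⟨x, hx, hmin⟩ := exists_min_image A f hA
  refine ⟨x, hx, fun y hy hyx => ?_⟩
  have h1 := hmin y hy
  have h2 : f y ≠ f x := fun h => hyx (hf h)
  omega

lemma ite_code {p1 p2 p3 q1 q2 q3 : Prop} [Decidable p1] [Decidable p2] [Decidable p3]
    [Decidable q1] [Decidable q2] [Decidable q3] (u1 : p1 → ¬ p2) (u2 : p1 → ¬ p3)
    (u3 : p2 → ¬ p3) (v1 : q1 → ¬ q2) (v2 : q1 → ¬ q3) (v3 : q2 → ¬ q3)
    (h : (if p1 then (0 : Fin 4) else if p2 then 1 else if p3 then 2 else 3) =
      (if q1 then (0 : Fin 4) else if q2 then 1 else if q3 then 2 else 3)) :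
    (p1 ↔ q1) ∧ (p2 ↔ q2) ∧ (p3 ↔ q3) := by
  by_cases a1 : p1 <;> by_cases a2 : p2 <;> by_cases a3 : p3 <;> by_cases b1 : q1 <;>
    by_cases b2 : q2 <;> by_cases b3 : q3 <;> simp_all

/-- Uniformity three: finitely many colours. -/
theorem lower_three (k₁ k₂ n : ℕ) (hn : 3 ≤ n) :
    ∃ (V : Type) (_ : Fintype V) (f : V → ℕ) (d : Fin (k₁ + k₂) → V → V → ℕ)
      (c : Finset V → (Fin (k₁ + k₂) → Fin 4)),
    Function.Injective f ∧ (∀ i, IsTree (d i)) ∧ (∀ i, k₁ ≤ i.val → IsBin (d i)) ∧
    Fintype.card V = (if Even k₂ then n else 2) ^ ((n - 1) ^ (k₁ + (k₂ + 1) / 2)) ∧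
    (∀ x y : Fin 3 ↪ V,
      (∀ i p q s u, d i (x p) (x q) < d i (x s) (x u) ↔ d i (y p) (y q) < d i (y s) (y u)) →
      (∀ p q, f (x p) < f (x q) ↔ f (y p) < f (y q)) →
      c (univ.map x) = c (univ.map y)) ∧
    ∀ H : Finset V, (∀ A B : Finset V, A ⊆ H → B ⊆ H → A.card = 3 → B.card = 3 →
      c A = c B) → H.card ≤ n := by
  classical
  obtain ⟨V, hV, f, d, hf, hd, hb, hcard, hg⟩ := Low_all' (show 2 ≤ n by omega) k₁ k₂
  refine ⟨V, hV, f, d, fun A i => if FwdR (ordF f) (d i) A then 0 else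
    if BwdR (ordF f) (d i) A then 1 else if StarR (ordF f) (d i) A then 2 else 3, hf, hd, hb,
    hcard, ?_, ?_⟩
  · intro x y h1 h2
    funext i
    simp only [fwd_map_iff (h1 i) h2, bwd_map_iff (h1 i) h2, star_map_iff (h1 i) h2]
  · intro H hH
    by_contra hcon
    push Not at hcon
    refine absurd (hg H fun i => ?_) (not_le.2 hcon)
    -- triples
    have htriple : ∀ x ∈ H, ∀ y ∈ H, ∀ z ∈ H, f x < f y → f y < f z →
        ({x, y, z} : Finset V) ⊆ H ∧ ({x, y, z} : Finset V).card = 3 := by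
      intro x hx y hy z hz hxy hyz
      constructor
      · intro v hv
        simp only [mem_insert, mem_singleton] at hv
        rcases hv with rfl | rfl | rfl <;> assumption
      · refine card_eq_three.2 ⟨x, y, z, ?_, ?_, ?_, rfl⟩
        · intro h; rw [h] at hxy; omega
        · intro h; rw [h] at hxy; omega
        · intro h; rw [h] at hyz; omega
    -- four points
    obtain ⟨a, ha, hamin⟩ := exists_min_ord hf (card_pos.1 (show 0 < H.card by omega))
    have hc1 : (H.erase a).card = H.card - 1 := card_erase_of_mem ha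
    obtain ⟨b, hb', hbmin⟩ := exists_min_ord hf (card_pos.1 (show 0 < (H.erase a).card by omega))
    have hc2 : ((H.erase a).erase b).card = (H.erase a).card - 1 := card_erase_of_mem hb'
    obtain ⟨c, hc', hcmin⟩ := exists_min_ord hf
      (card_pos.1 (show 0 < ((H.erase a).erase b).card by omega))
    have hc3 : (((H.erase a).erase b).erase c).card = ((H.erase a).erase b).card - 1 :=
      card_erase_of_mem hc'
    obtain ⟨e, he'⟩ := card_pos.1 (show 0 < (((H.erase a).erase b).erase c).card by omega)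
    have hbH := mem_of_mem_erase hb'
    have hcb := mem_of_mem_erase hc'
    have hcH := mem_of_mem_erase hcb
    have hec := mem_of_mem_erase he'
    have heb := mem_of_mem_erase hec
    have heH := mem_of_mem_erase heb
    have hab : f a < f b := hamin b hbH (ne_of_mem_erase hb')
    have hbc : f b < f c := hbmin c hcb (ne_of_mem_erase hc')
    have hce : f c < f e := hcmin e hec (ne_of_mem_erase he')
    obtain ⟨hT0, hT0c⟩ := htriple a ha b hbH c hcH hab hbc
    -- every triple has the type of `a, b, c`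
    have hP : ∀ x ∈ H, ∀ y ∈ H, ∀ z ∈ H, f x < f y → f y < f z →
        (FwdR (ordF f) (d i) {x, y, z} ↔ FwdR (ordF f) (d i) {a, b, c}) ∧
        (BwdR (ordF f) (d i) {x, y, z} ↔ BwdR (ordF f) (d i) {a, b, c}) ∧
        (StarR (ordF f) (d i) {x, y, z} ↔ StarR (ordF f) (d i) {a, b, c}) := by
      intro x hx y hy z hz hxy hyz
      obtain ⟨h1, h2⟩ := htriple x hx y hy z hz hxy hyz
      have h3 := congrFun (hH _ _ h1 hT0 h2 hT0c) i
      have ex : x ∈ ({x, y, z} : Finset V) := by simp
      have ey : y ∈ ({x, y, z} : Finset V) := by simp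
      have ez : z ∈ ({x, y, z} : Finset V) := by simp
      have ea : a ∈ ({a, b, c} : Finset V) := by simp
      have eb : b ∈ ({a, b, c} : Finset V) := by simp
      have ec : c ∈ ({a, b, c} : Finset V) := by simp
      have u1 : FwdR (ordF f) (d i) {x, y, z} → ¬ BwdR (ordF f) (d i) {x, y, z} := by
        intro p q
        have := p x ex y ey z ez hxy hyz
        have := q x ex y ey z ez hxy hyz
        omega
      have u2 : FwdR (ordF f) (d i) {x, y, z} → ¬ StarR (ordF f) (d i) {x, y, z} := by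
        intro p q
        have := p x ex y ey z ez hxy hyz
        have := q x ex y ey z ez hxy hyz
        omega
      have u3 : BwdR (ordF f) (d i) {x, y, z} → ¬ StarR (ordF f) (d i) {x, y, z} := by
        intro p q
        have := p x ex y ey z ez hxy hyz
        have := q x ex y ey z ez hxy hyz
        omega
      have v1 : FwdR (ordF f) (d i) {a, b, c} → ¬ BwdR (ordF f) (d i) {a, b, c} := by
        intro p q
        have := p a ea b eb c ec hab hbc
        have := q a ea b eb c ec hab hbc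
        omega
      have v2 : FwdR (ordF f) (d i) {a, b, c} → ¬ StarR (ordF f) (d i) {a, b, c} := by
        intro p q
        have := p a ea b eb c ec hab hbc
        have := q a ea b eb c ec hab hbc
        omega
      have v3 : BwdR (ordF f) (d i) {a, b, c} → ¬ StarR (ordF f) (d i) {a, b, c} := by
        intro p q
        have := p a ea b eb c ec hab hbc
        have := q a ea b eb c ec hab hbc
        omega
      exact ite_code u1 u2 u3 v1 v2 v3 h3
    by_cases h0 : FwdR (ordF f) (d i) {a, b, c}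
    · refine Or.inl fun x hx y hy z hz hxy hyz => ?_
      exact (hP x hx y hy z hz hxy hyz).1.2 h0 x (by simp) y (by simp) z (by simp) hxy hyz
    by_cases h1 : BwdR (ordF f) (d i) {a, b, c}
    · refine Or.inr (Or.inl fun x hx y hy z hz hxy hyz => ?_)
      exact (hP x hx y hy z hz hxy hyz).2.1.2 h1 x (by simp) y (by simp) z (by simp) hxy hyz
    by_cases h2 : StarR (ordF f) (d i) {a, b, c}
    · refine Or.inr (Or.inr fun x hx y hy z hz hxy hyz => ?_)
      exact (hP x hx y hy z hz hxy hyz).2.2.2 h2 x (by simp) y (by simp) z (by simp) hxy hyz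
    -- the remaining type is impossible for four points
    exfalso
    have hQ : ∀ x ∈ H, ∀ y ∈ H, ∀ z ∈ H, f x < f y → f y < f z →
        d i x y = d i y z ∧ d i x z < d i x y := by
      intro x hx y hy z hz hxy hyz
      obtain ⟨g1, g2, g3⟩ := hP x hx y hy z hz hxy hyz
      have k1 : ¬ FwdR (ordF f) (d i) {x, y, z} := fun h => h0 (g1.1 h)
      have k2 : ¬ BwdR (ordF f) (d i) {x, y, z} := fun h => h1 (g2.1 h)
      have k3 : ¬ StarR (ordF f) (d i) {x, y, z} := fun h => h2 (g3.1 h)
      have only : ∀ x' ∈ ({x, y, z} : Finset V), ∀ y' ∈ ({x, y, z} : Finset V),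
          ∀ z' ∈ ({x, y, z} : Finset V), ordF f x' y' → ordF f y' z' →
          x' = x ∧ y' = y ∧ z' = z := by
        intro x' hx' y' hy' z' hz' h3 h4
        unfold ordF at h3 h4
        simp only [mem_insert, mem_singleton] at hx' hy' hz'
        rcases hx' with rfl | rfl | rfl <;> rcases hy' with rfl | rfl | rfl <;>
        rcases hz' with rfl | rfl | rfl <;> first | exact ⟨rfl, rfl, rfl⟩ | (exfalso; omega)
      have j1 : ¬ d i y z < d i x y := by
        intro h
        refine k1 fun x' hx' y' hy' z' hz' h3 h4 => ?_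
        obtain ⟨rfl, rfl, rfl⟩ := only x' hx' y' hy' z' hz' h3 h4
        exact h
      have j2 : ¬ d i x y < d i y z := by
        intro h
        refine k2 fun x' hx' y' hy' z' hz' h3 h4 => ?_
        obtain ⟨rfl, rfl, rfl⟩ := only x' hx' y' hy' z' hz' h3 h4
        exact h
      have j3 : ¬ (d i x y = d i y z ∧ d i x z = d i x y) := by
        intro h
        refine k3 fun x' hx' y' hy' z' hz' h3 h4 => ?_
        obtain ⟨rfl, rfl, rfl⟩ := only x' hx' y' hy' z' hz' h3 h4
        exact h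
      have j4 := (hd i).ultra x y z
      have j5 : d i x y = d i y z := by omega
      refine ⟨j5, ?_⟩
      have j6 : ¬ d i x z = d i x y := fun h => j3 ⟨j5, h⟩
      omega
    have q1 := hQ a ha b hbH c hcH hab hbc
    have q2 := hQ a ha b hbH e heH hab (by omega)
    have q3 := hQ b hbH c hcH e heH hbc hce
    omega

end Pool.Agent.N440.Trees
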