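import Pool.Agent.N440.Trees.Colour

/-!
# Ramsey numbers of colourings determined by trees and orders: raw forms
-/

set_option autoImplicit false

namespace Pool.Agent.N440.Trees

open Finset
open scoped List

lemma two_pow_clog_le {n : ℕ} (hn : 2 ≤ n) : 2 ^ Nat.clog 2 n ≤ n ^ 2 := by
  have h1 : 2 ^ (Nat.clog 2 n - 1) < n := Nat.pow_pred_clog_lt_self (by norm_num) hn
  have h2 : 0 < Nat.clog 2 n := Nat.clog_pos (by norm_num) hn
  have h3 : 2 ^ Nat.clog 2 n = 2 * 2 ^ (Nat.clog 2 n - 1) := by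
    rw [← pow_succ']; congr 1; omega
  rw [h3]
  nlinarith

lemma pow_ordr_le (k₁ k₂ C n : ℕ) (hn : 2 ≤ n) :
    2 ^ (C * ordr k₁ k₂ n) ≤ (if Even k₂ then n else 2) ^ (2 * C * n ^ (k₁ + (k₂ + 1) / 2)) := by
  unfold ordr lam
  by_cases h : Even k₂
  · rw [if_pos h, if_pos h]
    calc 2 ^ (C * (n ^ (k₁ + (k₂ + 1) / 2) * Nat.clog 2 n))
        = (2 ^ Nat.clog 2 n) ^ (C * n ^ (k₁ + (k₂ + 1) / 2)) := by rw [← pow_mul]; congr 1; ring
      _ ≤ (n ^ 2) ^ (C * n ^ (k₁ + (k₂ + 1) / 2)) := Nat.pow_le_pow_left (two_pow_clog_le hn) _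
      _ = _ := by rw [← pow_mul]; congr 1; ring
  · rw [if_neg h, if_neg h]
    refine Nat.pow_le_pow_right (by norm_num) ?_
    nlinarith [Nat.zero_le (C * n ^ (k₁ + (k₂ + 1) / 2))]

/-- A good list in every large finite set. -/
lemma exists_good (k₁ k₂ t : ℕ) (V : Type) (d : Fin (k₁ + k₂) → V → V → ℕ)
    (f : Fin t → V → ℕ) (n : ℕ) (S : Finset V) (hd : ∀ i, IsTree (d i))
    (hb : ∀ i, k₁ ≤ i.val → IsBin (d i)) (hf : ∀ j, Function.Injective (f j)) (hn : 2 ≤ n)
    (hS : 2 ^ (cst (k₁ + k₂) t * ordr k₁ k₂ n) ≤ S.card) :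
    ∃ l : List V, l.length = n ∧ l.Nodup ∧ (∀ x ∈ l, x ∈ S) ∧ (∀ i, GoodT (d i) l) ∧
      ∀ j, GoodF (f j) l := by
  classical
  obtain ⟨l, hl, hnd, hlS, h1, h2, h3⟩ := Q_all (k₁ + k₂) k₁ k₂ t rfl V n hn S
    (univ.image fun i : Fin k₁ => d (Fin.castAdd k₂ i))
    (univ.image fun i : Fin k₂ => d (Fin.natAdd k₁ i)) (univ.image f)
    (card_image_le.trans (by simp)) (card_image_le.trans (by simp))
    (card_image_le.trans (by simp))
    (by
      intro e he
      rw [mem_image] at he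
      obtain ⟨i, _, rfl⟩ := he
      exact hd _)
    (by
      intro e he
      rw [mem_image] at he
      obtain ⟨i, _, rfl⟩ := he
      exact ⟨hd _, hb _ (by simp)⟩)
    (by
      intro g hg
      rw [mem_image] at hg
      obtain ⟨j, _, rfl⟩ := hg
      exact (hf j).injOn) hS
  refine ⟨l, hl, hnd, hlS, fun i => ?_, fun j => h3 _ (mem_image.2 ⟨j, mem_univ _, rfl⟩)⟩
  refine Fin.addCases (fun i => ?_) (fun i => ?_) i
  · exact h1 _ (mem_image.2 ⟨i, mem_univ _, rfl⟩)
  · exact h2 _ (mem_image.2 ⟨i, mem_univ _, rfl⟩)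

/-- A function is injective or constant on a large subset. -/
lemma reduce_one {V : Type} (f : V → ℕ) (S : Finset V) : ∃ S' ⊆ S, S.card ≤ S'.card ^ 2 ∧
    (Set.InjOn f S' ∨ ∀ x ∈ S', ∀ y ∈ S', f x = f y) := by
  classical
  rcases S.eq_empty_or_nonempty with rfl | hne
  · exact ⟨∅, Subset.refl _, by simp, Or.inl (by simp)⟩
  obtain ⟨a, ha, hmax⟩ := exists_max_image (S.image f) (fun a => (S.filter fun x => f x = a).card)
    (hne.image f)
  set m := (S.filter fun x => f x = a).card with hm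
  have h1 : S.card ≤ (S.image f).card * m := by
    rw [card_eq_sum_card_image f S]
    calc ∑ b ∈ S.image f, (S.filter fun x => f x = b).card ≤ ∑ b ∈ S.image f, m :=
          sum_le_sum fun b hb => hmax b hb
      _ = _ := by rw [sum_const, smul_eq_mul]
  rcases le_total (S.image f).card m with h | h
  · refine ⟨S.filter fun x => f x = a, filter_subset _ _, ?_, Or.inr ?_⟩
    · rw [← hm, sq]
      exact h1.trans (Nat.mul_le_mul_right _ h)
    · intro x hx y hy
      rw [(mem_filter.1 hx).2, (mem_filter.1 hy).2]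
  · obtain ⟨Z, hZ, hinj, hcard⟩ := exists_injOn_subset f S
    refine ⟨Z, hZ, ?_, Or.inl hinj⟩
    have hcard' : Z.card = (S.image f).card := by
      rw [hcard]
    rw [hcard', sq]
    exact h1.trans (Nat.mul_le_mul_left _ h)

lemma reduce_all {V : Type} {t : ℕ} (f : Fin t → V → ℕ) (S : Finset V) : ∃ S' ⊆ S,
    S.card ≤ S'.card ^ 2 ^ t ∧
    ∀ j, Set.InjOn (f j) S' ∨ ∀ x ∈ S', ∀ y ∈ S', f j x = f j y := by
  induction t with
  | zero => exact ⟨S, Subset.refl _, by simp, fun j => j.elim0⟩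
  | succ t ih =>
    obtain ⟨S1, hS1, hc1, h1⟩ := ih (fun j => f j.castSucc)
    obtain ⟨S2, hS2, hc2, h2⟩ := reduce_one (f (Fin.last t)) S1
    refine ⟨S2, hS2.trans hS1, ?_, ?_⟩
    · calc S.card ≤ S1.card ^ 2 ^ t := hc1
        _ ≤ (S2.card ^ 2) ^ 2 ^ t := Nat.pow_le_pow_left hc2 _
        _ = _ := by rw [← pow_mul, pow_succ, mul_comm]
    · intro j
      refine Fin.lastCases h2 (fun j => ?_) j
      rcases h1 j with h | h
      · exact Or.inl (h.mono (by exact_mod_cast hS2))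
      · exact Or.inr fun x hx y hy => h x (hS2 hx) y (hS2 hy)

/-- A good list in every large finite set, arbitrary functions. -/
lemma exists_goodW (k₁ k₂ t : ℕ) (V : Type) (d : Fin (k₁ + k₂) → V → V → ℕ)
    (f : Fin t → V → ℕ) (n : ℕ) (S : Finset V) (hd : ∀ i, IsTree (d i))
    (hb : ∀ i, k₁ ≤ i.val → IsBin (d i)) (hn : 2 ≤ n)
    (hS : 2 ^ (2 ^ t * cst (k₁ + k₂) t * ordr k₁ k₂ n) ≤ S.card) :
    ∃ l : List V, l.length = n ∧ l.Nodup ∧ (∀ x ∈ l, x ∈ S) ∧ (∀ i, GoodT (d i) l) ∧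
      ∀ j, WGoodF (f j) l := by
  classical
  obtain ⟨S', hS', hcard, hf⟩ := reduce_all f S
  have hbig : 2 ^ (cst (k₁ + k₂) t * ordr k₁ k₂ n) ≤ S'.card := by
    have h1 : (2 ^ (cst (k₁ + k₂) t * ordr k₁ k₂ n)) ^ 2 ^ t ≤ S'.card ^ 2 ^ t := by
      rw [← pow_mul]
      refine le_trans (le_of_eq ?_) (hS.trans hcard)
      congr 1
      ring
    exact le_of_pow_le_pow_left₀ (by positivity) (Nat.zero_le _) h1
  obtain ⟨l, hl, hnd, hlS, h1, h2, h3⟩ := Q_all (k₁ + k₂) k₁ k₂ t rfl V n hn S'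
    (univ.image fun i : Fin k₁ => d (Fin.castAdd k₂ i))
    (univ.image fun i : Fin k₂ => d (Fin.natAdd k₁ i))
    ((univ.image f).filter fun g => Set.InjOn g S')
    (card_image_le.trans (by simp)) (card_image_le.trans (by simp))
    ((card_le_card (filter_subset _ _)).trans (card_image_le.trans (by simp)))
    (by
      intro e he
      rw [mem_image] at he
      obtain ⟨i, _, rfl⟩ := he
      exact hd _)
    (by
      intro e he
      rw [mem_image] at he
      obtain ⟨i, _, rfl⟩ := he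
      exact ⟨hd _, hb _ (by simp)⟩)
    (by
      intro g hg
      exact (mem_filter.1 hg).2) hbig
  refine ⟨l, hl, hnd, fun x hx => hS' (hlS x hx), fun i => ?_, fun j => ?_⟩
  · refine Fin.addCases (fun i => ?_) (fun i => ?_) i
    · exact h1 _ (mem_image.2 ⟨i, mem_univ _, rfl⟩)
    · exact h2 _ (mem_image.2 ⟨i, mem_univ _, rfl⟩)
  · rcases hf j with h | h
    · exact Or.inl (h3 _ (mem_filter.2 ⟨mem_image.2 ⟨j, mem_univ _, rfl⟩, h⟩))
    · exact Or.inr fun x hx y hy => h x (hlS x hx) y (hlS y hy)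

/-- The upper bound. -/
theorem upper_raw (k₁ k₂ t : ℕ) (V : Type) [Fintype V]
    (d : Fin (k₁ + k₂) → V → V → ℕ) (f : Fin t → V → ℕ) (n r : ℕ) (κ : Type) (c : Finset V → κ)
    (hd : ∀ i, IsTree (d i)) (hb : ∀ i, k₁ ≤ i.val → IsBin (d i)) (hn : 2 ≤ n)
    (hdet : ∀ x y : Fin r ↪ V,
      (∀ i p q s u, d i (x p) (x q) < d i (x s) (x u) ↔ d i (y p) (y q) < d i (y s) (y u)) →
      (∀ j p q, f j (x p) < f j (x q) ↔ f j (y p) < f j (y q)) →
      c (univ.map x) = c (univ.map y))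
    (hcard : (if Even k₂ then n else 2) ^ (2 ^ (5 * (k₁ + k₂ + 1) * (k₁ + k₂ + t + 1)) *
      n ^ (k₁ + (k₂ + 1) / 2)) ≤ Fintype.card V) :
    ∃ H : Finset V, H.card = n ∧ ∀ A B : Finset V, A ⊆ H → B ⊆ H → A.card = r → B.card = r →
      c A = c B := by
  have hb1 : 1 ≤ (if Even k₂ then n else 2) := by split_ifs <;> omega
  have hc : 2 * (2 ^ t * cst (k₁ + k₂) t) ≤ 2 ^ (5 * (k₁ + k₂ + 1) * (k₁ + k₂ + t + 1)) := by
    rw [cst, ← pow_add, ← pow_succ']
    refine Nat.pow_le_pow_right (by norm_num) ?_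
    nlinarith [Nat.zero_le ((k₁ + k₂) * (k₁ + k₂ + t + 1))]
  obtain ⟨l, hl, hnd, _, hgd, hgf⟩ := exists_goodW k₁ k₂ t V d f n univ hd hb hn
    ((pow_ordr_le k₁ k₂ _ n hn).trans (by
      rw [card_univ]
      exact le_trans (Nat.pow_le_pow_right hb1 (Nat.mul_le_mul_right _ hc)) hcard))
  obtain ⟨H, hH, _, hhom⟩ := homog_of_good d f hd c hdet l hnd hgd hgf
  exact ⟨H, hH.trans hl, hhom⟩

/-! ### From lists to good sets -/

lemma FwdR_of_list {V : Type} [DecidableEq V] {r : V → V → Prop} (hr : ∀ x y, r x y → ¬ r y x)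
    {d : V → V → ℕ} : ∀ l : List V, l.Pairwise r → Fwd d l → FwdR r d l.toFinset := by
  intro l
  induction l with
  | nil => intro _ _ x hx; simp at hx
  | cons a l ih =>
    intro hp hf x hx y hy z hz hxy hyz
    rw [List.pairwise_cons] at hp
    rw [List.mem_toFinset, List.mem_cons] at hx hy hz
    have hirr : ∀ x, ¬ r x x := fun x h => hr x x h h
    have hy' : y ∈ l := by
      rcases hy with rfl | hy
      · exfalso
        rcases hx with rfl | hx
        · exact hirr _ hxy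
        · exact hr _ _ hxy (hp.1 x hx)
      · exact hy
    have hz' : z ∈ l := by
      rcases hz with rfl | hz
      · exfalso
        exact hr _ _ hyz (hp.1 y hy')
      · exact hz
    rcases hx with rfl | hx
    · exact hf.1 y hy' z hz'
    · exact ih hp.2 hf.2 x (List.mem_toFinset.2 hx) y (List.mem_toFinset.2 hy') z
        (List.mem_toFinset.2 hz') hxy hyz

lemma GoodR_of_list {V : Type} [DecidableEq V] {f : V → ℕ} {d : V → V → ℕ} (hd : IsTree d)
    {l : List V} (hf : GoodF f l) (hg : GoodT d l) : GoodR (ordF f) d l.toFinset := by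
  have hasym : ∀ x y : V, ordF f x y → ¬ ordF f y x := by
    intro x y h
    unfold ordF at h ⊢
    omega
  have hasym' : ∀ x y : V, ordF f y x → ¬ ordF f x y := fun x y h => hasym y x h
  rcases hg with hg | hg | ⟨h, hg⟩
  · rcases hf with hf | hf
    · exact Or.inl (FwdR_of_list hasym l hf hg)
    · refine Or.inr (Or.inl ((bwdR_iff hd).2 ?_))
      exact FwdR_of_list (r := fun x y => ordF f y x) hasym' l hf hg
  · rcases hf with hf | hf
    · refine Or.inr (Or.inl ((bwdR_iff hd).2 ?_))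
      have h1 := FwdR_of_list (r := fun x y => ordF f y x) hasym' l.reverse
        (List.pairwise_reverse.2 hf) hg
      rwa [List.toFinset_reverse] at h1
    · refine Or.inl ?_
      have h1 := FwdR_of_list (r := ordF f) hasym l.reverse (List.pairwise_reverse.2 hf) hg
      rwa [List.toFinset_reverse] at h1
  · refine Or.inr (Or.inr ?_)
    have key : ∀ x ∈ l, ∀ y ∈ l, x ≠ y → d x y = h := by
      intro x hx y hy hxy
      have hsym : Std.Symm (fun x y : V => d x y = h) := ⟨fun a b hab => by rw [hd.symm]; exact hab⟩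
      exact hg.forall hx hy hxy
    intro x hx y hy z hz hxy hyz
    rw [List.mem_toFinset] at hx hy hz
    have e1 : x ≠ y := fun h => by unfold ordF at hxy; rw [h] at hxy; omega
    have e2 : y ≠ z := fun h => by unfold ordF at hyz; rw [h] at hyz; omega
    have e3 : x ≠ z := fun h => by unfold ordF at hxy hyz; rw [h] at hxy; omega
    rw [key x hx y hy e1, key y hy z hz e2, key x hx z hz e3]
    exact ⟨rfl, rfl⟩

lemma GoodR.mono {V : Type} {r : V → V → Prop} {d : V → V → ℕ} {A B : Finset V} (hAB : A ⊆ B)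
    (h : GoodR r d B) : GoodR r d A := by
  rcases h with h | h | h
  · exact Or.inl fun x hx y hy z hz => h x (hAB hx) y (hAB hy) z (hAB hz)
  · exact Or.inr (Or.inl fun x hx y hy z hz => h x (hAB hx) y (hAB hy) z (hAB hz))
  · exact Or.inr (Or.inr fun x hx y hy z hz => h x (hAB hx) y (hAB hy) z (hAB hz))

/-- The three types of a triple. -/
def Ty {V : Type} (d : V → V → ℕ) (X : Fin 3) (x y z : V) : Prop :=
  (X = 0 ∧ d y z < d x y) ∨ (X = 1 ∧ d x y < d y z) ∨ (X = 2 ∧ d x y = d y z ∧ d x z = d x y)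

lemma Ty.unique {V : Type} {d : V → V → ℕ} {X Y : Fin 3} {x y z : V} (h1 : Ty d X x y z)
    (h2 : Ty d Y x y z) : X = Y := by
  rcases h1 with ⟨rfl, h1⟩ | ⟨rfl, h1⟩ | ⟨rfl, h1⟩ <;>
  rcases h2 with ⟨rfl, h2⟩ | ⟨rfl, h2⟩ | ⟨rfl, h2⟩ <;> first | rfl | (exfalso; omega)

lemma goodR_iff {V : Type} {r : V → V → Prop} {d : V → V → ℕ} {A : Finset V} :
    GoodR r d A ↔ ∃ X : Fin 3, ∀ x ∈ A, ∀ y ∈ A, ∀ z ∈ A, r x y → r y z → Ty d X x y z := by
  constructor
  · rintro (h | h | h)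
    · exact ⟨0, fun x hx y hy z hz hxy hyz => Or.inl ⟨rfl, h x hx y hy z hz hxy hyz⟩⟩
    · exact ⟨1, fun x hx y hy z hz hxy hyz => Or.inr (Or.inl ⟨rfl, h x hx y hy z hz hxy hyz⟩)⟩
    · exact ⟨2, fun x hx y hy z hz hxy hyz => Or.inr (Or.inr ⟨rfl, h x hx y hy z hz hxy hyz⟩)⟩
  · rintro ⟨X, h⟩
    by_cases h0 : X = 0
    · refine Or.inl fun x hx y hy z hz hxy hyz => ?_
      rcases h x hx y hy z hz hxy hyz with ⟨_, h1⟩ | ⟨e, _⟩ | ⟨e, _⟩
      · exact h1
      · rw [h0] at e; exact absurd e (by decide)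
      · rw [h0] at e; exact absurd e (by decide)
    · by_cases h1 : X = 1
      · refine Or.inr (Or.inl fun x hx y hy z hz hxy hyz => ?_)
        rcases h x hx y hy z hz hxy hyz with ⟨e, _⟩ | ⟨_, h2⟩ | ⟨e, _⟩
        · exact absurd e h0
        · exact h2
        · rw [h1] at e; exact absurd e (by decide)
      · refine Or.inr (Or.inr fun x hx y hy z hz hxy hyz => ?_)
        rcases h x hx y hy z hz hxy hyz with ⟨e, _⟩ | ⟨e, _⟩ | ⟨_, h2⟩
        · exact absurd e h0
        · exact absurd e h1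
        · exact h2

/-- If all subsets with at most four points are good then the set is good. -/
lemma good_of_four {V : Type} [DecidableEq V] {f : V → ℕ} {d : V → V → ℕ} {H : Finset V}
    (h4 : ∀ Q ⊆ H, Q.card ≤ 4 → GoodR (ordF f) d Q) : GoodR (ordF f) d H := by
  have step : ∀ a ∈ H, ∀ b ∈ H, ∀ c ∈ H, ∀ e ∈ H, ∀ x ∈ ({a, b, c, e} : Finset V),
      ∀ y ∈ ({a, b, c, e} : Finset V), ∀ z ∈ ({a, b, c, e} : Finset V),
      ∀ x' ∈ ({a, b, c, e} : Finset V), ∀ y' ∈ ({a, b, c, e} : Finset V),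
      ∀ z' ∈ ({a, b, c, e} : Finset V), f x < f y → f y < f z → f x' < f y' → f y' < f z' →
      ∀ X, Ty d X x y z → Ty d X x' y' z' := by
    intro a ha b hb c hc e he x hx y hy z hz x' hx' y' hy' z' hz' h1 h2 h3 h4' X hX
    have hsub : ({a, b, c, e} : Finset V) ⊆ H := by
      intro v hv
      simp only [mem_insert, mem_singleton] at hv
      rcases hv with rfl | rfl | rfl | rfl <;> assumption
    obtain ⟨Y, hY⟩ := goodR_iff.1 (h4 _ hsub card_le_four)
    have := hX.unique (hY x hx y hy z hz h1 h2)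
    rw [this]
    exact hY x' hx' y' hy' z' hz' h3 h4'
  -- the three moves
  have m1 : ∀ m ∈ H, ∀ a ∈ H, ∀ b ∈ H, ∀ c ∈ H, f m ≤ f a → f a < f b → f b < f c → ∀ X,
      (Ty d X a b c ↔ Ty d X m b c) := by
    intro m hm a ha b hb c hc hma hab hbc X
    constructor
    · exact step m hm a ha b hb c hc a (by simp) b (by simp) c (by simp) m (by simp) b (by simp)
        c (by simp) hab hbc (by omega) hbc X
    · exact step m hm a ha b hb c hc m (by simp) b (by simp) c (by simp) a (by simp) b (by simp)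
        c (by simp) (by omega) hbc hab hbc X
  have m2 : ∀ M ∈ H, ∀ a ∈ H, ∀ b ∈ H, ∀ c ∈ H, f c ≤ f M → f a < f b → f b < f c → ∀ X,
      (Ty d X a b c ↔ Ty d X a b M) := by
    intro M hM a ha b hb c hc hcM hab hbc X
    constructor
    · exact step M hM a ha b hb c hc a (by simp) b (by simp) c (by simp) a (by simp) b (by simp)
        M (by simp) hab hbc hab (by omega) X
    · exact step M hM a ha b hb c hc a (by simp) b (by simp) M (by simp) a (by simp) b (by simp)
        c (by simp) hab (by omega) hab hbc X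
  have m3 : ∀ m ∈ H, ∀ b ∈ H, ∀ b' ∈ H, ∀ M ∈ H, f m < f b → f m < f b' → f b < f M →
      f b' < f M → ∀ X, (Ty d X m b M ↔ Ty d X m b' M) := by
    intro m hm b hb b' hb' M hM h1 h2 h3 h4' X
    constructor
    · exact step m hm b hb b' hb' M hM m (by simp) b (by simp) M (by simp) m (by simp) b' (by simp)
        M (by simp) h1 h3 h2 h4' X
    · exact step m hm b hb b' hb' M hM m (by simp) b' (by simp) M (by simp) m (by simp) b (by simp)
        M (by simp) h2 h4' h1 h3 X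
  have all : ∀ a ∈ H, ∀ b ∈ H, ∀ c ∈ H, ∀ a' ∈ H, ∀ b' ∈ H, ∀ c' ∈ H, f a < f b → f b < f c →
      f a' < f b' → f b' < f c' → ∀ X, Ty d X a b c → Ty d X a' b' c' := by
    intro a ha b hb c hc a' ha' b' hb' c' hc' h1 h2 h3 h4' X hX
    obtain ⟨m, hm, hma, hma'⟩ : ∃ m ∈ H, f m ≤ f a ∧ f m ≤ f a' := by
      rcases le_total (f a) (f a') with h | h
      · exact ⟨a, ha, le_rfl, h⟩
      · exact ⟨a', ha', h, le_rfl⟩
    obtain ⟨M, hM, hcM, hcM'⟩ : ∃ M ∈ H, f c ≤ f M ∧ f c' ≤ f M := by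
      rcases le_total (f c) (f c') with h | h
      · exact ⟨c', hc', h, le_rfl⟩
      · exact ⟨c, hc, le_rfl, h⟩
    have e1 := (m1 m hm a ha b hb c hc hma h1 h2 X).1 hX
    have e2 := (m2 M hM m hm b hb c hc hcM (by omega) h2 X).1 e1
    have e3 := (m3 m hm b hb b' hb' M hM (by omega) (by omega) (by omega) (by omega) X).1 e2
    have e4 := (m2 M hM m hm b' hb' c' hc' hcM' (by omega) h4' X).2 e3
    exact (m1 m hm a' ha' b' hb' c' hc' hma' h3 h4' X).2 e4
  by_cases hex : ∃ a ∈ H, ∃ b ∈ H, ∃ c ∈ H, f a < f b ∧ f b < f c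
  · obtain ⟨a, ha, b, hb, c, hc, hab, hbc⟩ := hex
    have hsub : ({a, b, c} : Finset V) ⊆ H := by
      intro v hv
      simp only [mem_insert, mem_singleton] at hv
      rcases hv with rfl | rfl | rfl <;> assumption
    obtain ⟨X, hX⟩ := goodR_iff.1 (h4 _ hsub (card_le_three.trans (by norm_num)))
    exact goodR_iff.2 ⟨X, fun a' ha' b' hb' c' hc' h1 h2 => all a ha b hb c hc a' ha' b' hb' c' hc'
      hab hbc h1 h2 X (hX a (by simp) b (by simp) c (by simp) hab hbc)⟩
  · refine Or.inl fun x hx y hy z hz hxy hyz => ?_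
    exact absurd ⟨x, hx, y, hy, z, hz, hxy, hyz⟩ hex

end Pool.Agent.N440.Trees
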