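import Pool.Agent.N440.Trees.Main

/-!
# Tower growth needs many trees or functions
-/

set_option autoImplicit false

namespace Pool.Agent.N440.Trees

lemma log_small (m n : ℕ) (hn : 2 ^ (14 + 4 * m) ≤ n) :
    4 * m ^ 2 * (Nat.log 2 n + 1) ^ 2 ≤ n := by
  set L := Nat.log 2 n + 1 with hL
  have hn0 : n ≠ 0 := by
    have : 0 < 2 ^ (14 + 4 * m) := by positivity
    omega
  have h1 : 14 + 4 * m ≤ Nat.log 2 n := by
    have := Nat.log_mono_right (b := 2) hn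
    rwa [Nat.log_pow (by norm_num)] at this
  have h2 : 2 ^ (L - 1) ≤ n := by
    rw [hL, Nat.add_sub_cancel]
    exact Nat.pow_log_le_self 2 hn0
  refine le_trans ?_ h2
  -- `L ≤ 4 (s + 1)` with `s = L / 4`
  have h3 : L ≤ 4 * (L / 4 + 1) := by omega
  have h4 : L ^ 2 ≤ 16 * 4 ^ (L / 4) := by
    calc L ^ 2 ≤ (4 * (L / 4 + 1)) ^ 2 := Nat.pow_le_pow_left h3 2
      _ = 16 * (L / 4 + 1) ^ 2 := by ring
      _ ≤ 16 * 4 ^ (L / 4) := Nat.mul_le_mul_left _ (succ_sq_le _)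
  have h5 : 4 ^ (L / 4) ≤ 2 ^ (L / 2) := by
    calc 4 ^ (L / 4) = 2 ^ (2 * (L / 4)) := by rw [pow_mul]; norm_num
      _ ≤ 2 ^ (L / 2) := Nat.pow_le_pow_right (by norm_num) (by omega)
  have h6 : m ^ 2 ≤ 2 ^ (2 * m) := by
    rw [mul_comm, pow_mul]
    exact Nat.pow_le_pow_left (Nat.lt_two_pow_self).le 2
  calc 4 * m ^ 2 * L ^ 2 ≤ 4 * 2 ^ (2 * m) * (16 * 2 ^ (L / 2)) :=
        Nat.mul_le_mul (Nat.mul_le_mul_left _ h6) (h4.trans (Nat.mul_le_mul_left _ h5))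
    _ = 2 ^ (6 + 2 * m + L / 2) := by rw [pow_add, pow_add]; ring
    _ ≤ 2 ^ (L - 1) := Nat.pow_le_pow_right (by norm_num) (by omega)

lemma tower_arith (m k₁ k₂ t n : ℕ) (hm : 1 ≤ m) (hn : 2 ^ (14 + 4 * m) ≤ n)
    (hA : 10 * m * ((k₁ + k₂ + 1) * (k₁ + k₂ + t + 1)) ≤ n) :
    (if Even k₂ then n else 2) ^ (2 ^ (5 * (k₁ + k₂ + 1) * (k₁ + k₂ + t + 1)) *
      n ^ (k₁ + (k₂ + 1) / 2)) ≤ 2 ^ 2 ^ (n / m) := by
  set A := (k₁ + k₂ + 1) * (k₁ + k₂ + t + 1) with hAdef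
  set L := Nat.log 2 n + 1 with hL
  have hn2 : 2 ≤ n := by
    refine le_trans ?_ hn
    calc 2 = 2 ^ 1 := rfl
      _ ≤ 2 ^ (14 + 4 * m) := Nat.pow_le_pow_right (by norm_num) (by omega)
  have hnL : n ≤ 2 ^ L := (Nat.lt_pow_succ_log_self (by norm_num) n).le
  have hbase : (if Even k₂ then n else 2) ≤ 2 ^ L := by
    split_ifs
    · exact hnL
    · exact hn2.trans hnL
  have hlog := log_small m n hn
  set e := k₁ + (k₂ + 1) / 2 with he
  have hek : e ≤ k₁ + k₂ := by omega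
  set s := k₁ + k₂ + 1 with hs
  have hsA : s ^ 2 ≤ A := by
    rw [sq, hAdef]
    exact Nat.mul_le_mul_left _ (by omega)
  have hAn : A ≤ n := le_trans (Nat.le_mul_of_pos_left _ (by omega)) hA
  -- `2 m L s ≤ n`
  have h1 : 2 * m * L * s ≤ n := by
    have h2 : (2 * m * L * s) ^ 2 ≤ n ^ 2 := by
      calc (2 * m * L * s) ^ 2 = 4 * m ^ 2 * L ^ 2 * s ^ 2 := by ring
        _ ≤ n * n := Nat.mul_le_mul hlog (hsA.trans hAn)
        _ = n ^ 2 := (sq n).symm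
    exact le_of_pow_le_pow_left₀ (by norm_num) (Nat.zero_le _) h2
  have h3 : m * (5 * A + L * s) ≤ n := by
    have : 2 * (m * (5 * A + L * s)) = 10 * m * A + 2 * m * L * s := by ring
    omega
  have h4 : 5 * A + L * s ≤ n / m := by
    rw [Nat.le_div_iff_mul_le (by omega), mul_comm]
    exact h3
  have h5 : 5 * s * (k₁ + k₂ + t + 1) = 5 * A := by rw [hAdef, hs]; ring
  rw [h5]
  calc (if Even k₂ then n else 2) ^ (2 ^ (5 * A) * n ^ e)
      ≤ (2 ^ L) ^ (2 ^ (5 * A) * n ^ e) := Nat.pow_le_pow_left hbase _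
    _ = 2 ^ (L * (2 ^ (5 * A) * n ^ e)) := by rw [← pow_mul]
    _ ≤ 2 ^ 2 ^ (n / m) := by
      refine Nat.pow_le_pow_right (by norm_num) ?_
      calc L * (2 ^ (5 * A) * n ^ e) ≤ 2 ^ L * (2 ^ (5 * A) * (2 ^ L) ^ e) :=
            Nat.mul_le_mul (Nat.lt_two_pow_self).le
              (Nat.mul_le_mul_left _ (Nat.pow_le_pow_left hnL _))
        _ = 2 ^ (L + (5 * A + L * e)) := by rw [← pow_mul, ← pow_add, ← pow_add]
        _ ≤ 2 ^ (n / m) := by
          refine Nat.pow_le_pow_right (by norm_num) (le_trans ?_ h4)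
          have : L * e + L ≤ L * s := by
            calc L * e + L = L * (e + 1) := by ring
              _ ≤ L * s := Nat.mul_le_mul_left _ (by omega)
          omega

end Pool.Agent.N440.Trees
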