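import Pool.Agent.N440.Trees.Basic
import Pool.Agent.R795.Min.ES

/-!
# The upper bound for trees and orders
-/

set_option autoImplicit false

namespace Pool.Agent.N440.Trees

open Finset Classical
open scoped List

variable {V : Type*}

/-- Restriction of the trees: each tree has only one cell or only small cells. -/
lemma restrict (p : ℕ) (x : V) : ∀ (k : ℕ) (T : Finset (V → V → ℕ)), T.card = k →
    (∀ d ∈ T, IsTree d) → ∀ C : Finset V,
    ∃ C' ⊆ C, ∃ B ⊆ T, C.card ≤ 2 ^ (p * (T \ B).card) * C'.card ∧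
      (∀ d ∈ T \ B, ∀ y ∈ C', ∀ z ∈ C', d y z < d x y) ∧
      (∀ d ∈ B, ∀ y ∈ C', (C'.filter fun z => d y z < d x y).card * 2 ^ p < C'.card) := by
  intro k
  induction k with
  | zero =>
    intro T hT _ C
    rw [card_eq_zero] at hT
    subst hT
    exact ⟨C, Subset.refl _, ∅, Subset.refl _, by simp, by simp, by simp⟩
  | succ k ih =>
    intro T hT hd C
    by_cases h : ∃ d ∈ T, ∃ y ∈ C, C.card ≤ (C.filter fun z => d y z < d x y).card * 2 ^ p
    · obtain ⟨d, hdT, y, hy, hcard⟩ := h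
      have htree := hd d hdT
      obtain ⟨C', hC', B, hB, hc1, hc2, hc3⟩ := ih (T.erase d)
        (by rw [card_erase_of_mem hdT, hT]; rfl) (fun e he => hd e (mem_of_mem_erase he))
        (C.filter fun z => d y z < d x y)
      have hset : T \ B = insert d (T.erase d \ B) := by
        ext e
        simp only [mem_sdiff, mem_insert, mem_erase]
        constructor
        · rintro ⟨h1, h2⟩
          by_cases he : e = d
          · exact Or.inl he
          · exact Or.inr ⟨⟨he, h1⟩, h2⟩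
        · rintro (rfl | ⟨⟨_, h1⟩, h2⟩)
          · exact ⟨hdT, fun h => by simpa using hB h⟩
          · exact ⟨h1, h2⟩
      refine ⟨C', hC'.trans (filter_subset _ _), B, hB.trans (erase_subset _ _), ?_, ?_, hc3⟩
      · rw [hset, card_insert_of_notMem (by simp)]
        calc C.card ≤ (C.filter fun z => d y z < d x y).card * 2 ^ p := hcard
          _ ≤ (2 ^ (p * (T.erase d \ B).card) * C'.card) * 2 ^ p := Nat.mul_le_mul_right _ hc1
          _ = _ := by rw [Nat.mul_add, pow_add]; ring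
      · intro e he u hu v hv
        rw [hset, mem_insert] at he
        rcases he with rfl | he
        · have hu1 := (mem_filter.1 (hC' hu)).2
          have hv1 := (mem_filter.1 (hC' hv)).2
          have h1 := htree.eq_of_lt hu1
          have h2 := htree.ultra u y v
          rw [htree.symm u y] at h2
          rw [h1]
          omega
        · exact hc2 e he u hu v hv
    · push Not at h
      refine ⟨C, Subset.refl _, T, Subset.refl _, by simp, by simp, ?_⟩
      intro d hd y hy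
      exact h d hd y hy

/-- An independent set. -/
def IndepSet (R : V → V → Prop) (Z : Finset V) : Prop := ∀ y ∈ Z, ∀ z ∈ Z, y ≠ z → ¬ R y z

/-- Independent sets. -/
lemma indep (R : V → V → Prop) (C : Finset V) (hne : C.Nonempty) (K : ℕ)
    (hrefl : ∀ y ∈ C, R y y) (hsymm : ∀ y ∈ C, ∀ z ∈ C, R y z → R z y)
    (hsize : ∀ z ∈ C, (C.filter fun y => R z y).card * K ≤ C.card) :
    ∃ Z ⊆ C, K ≤ Z.card ∧ ∀ y ∈ Z, ∀ z ∈ Z, y ≠ z → ¬ R y z := by
  have hne' : (C.powerset.filter (IndepSet R)).Nonempty :=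
    ⟨∅, by simp [IndepSet]⟩
  obtain ⟨Z, hZ, hmax⟩ := exists_max_image _ (fun Z : Finset V => Z.card) hne'
  rw [mem_filter, mem_powerset] at hZ
  refine ⟨Z, hZ.1, ?_, hZ.2⟩
  have hcov : C ⊆ Z.biUnion fun z => C.filter fun y => R z y := by
    intro y hy
    rw [mem_biUnion]
    by_contra hcon
    push Not at hcon
    have h1 : ∀ z ∈ Z, ¬ R z y := fun z hz hr => hcon z hz (mem_filter.2 ⟨hy, hr⟩)
    have hyZ : y ∉ Z := fun h => h1 y h (hrefl y hy)
    have h2 := hmax (insert y Z) (by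
      rw [mem_filter, mem_powerset]
      refine ⟨insert_subset hy hZ.1, ?_⟩
      intro a ha b hb hab hr
      rw [mem_insert] at ha hb
      rcases ha with rfl | ha
      · rcases hb with rfl | hb
        · exact hab rfl
        · exact h1 b hb (hsymm _ hy _ (hZ.1 hb) hr)
      · rcases hb with rfl | hb
        · exact h1 a ha hr
        · exact hZ.2 a ha b hb hab hr)
    rw [card_insert_of_notMem hyZ] at h2
    omega
  have h3 : C.card ≤ ∑ z ∈ Z, (C.filter fun y => R z y).card :=
    (card_le_card hcov).trans card_biUnion_le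
  have h4 : C.card * K ≤ Z.card * C.card := by
    calc C.card * K ≤ (∑ z ∈ Z, (C.filter fun y => R z y).card) * K := Nat.mul_le_mul_right _ h3
      _ = ∑ z ∈ Z, (C.filter fun y => R z y).card * K := by rw [sum_mul]
      _ ≤ ∑ z ∈ Z, C.card := sum_le_sum fun z hz => hsize z (hZ.1 hz)
      _ = Z.card * C.card := by rw [sum_const, smul_eq_mul]
  have hpos : 0 < C.card := card_pos.2 hne
  rw [mul_comm] at h4
  exact Nat.le_of_mul_le_mul_right h4 hpos

lemma exists_injOn_subset (f : V → ℕ) (S : Finset V) : ∃ Z ⊆ S, Set.InjOn f Z ∧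
    Z.card = (S.image f).card := by
  rcases S.eq_empty_or_nonempty with rfl | ⟨y0, _⟩
  · exact ⟨∅, Subset.refl _, by simp, by simp⟩
  have : Nonempty V := ⟨y0⟩
  have h : ∀ a ∈ S.image f, ∃ y, y ∈ S ∧ f y = a := fun a ha => by simpa using ha
  choose! g hg using h
  refine ⟨(S.image f).image g, ?_, ?_, ?_⟩
  · intro y hy
    rw [mem_image] at hy
    obtain ⟨a, ha, rfl⟩ := hy
    exact (hg a ha).1
  · intro y hy z hz hyz
    rw [mem_coe, mem_image] at hy hz
    obtain ⟨a, ha, rfl⟩ := hy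
    obtain ⟨b, hb, rfl⟩ := hz
    rw [(hg a ha).2, (hg b hb).2] at hyz
    rw [hyz]
  · rw [card_image_of_injOn]
    intro a ha b hb hab
    rw [← (hg a ha).2, ← (hg b hb).2]
    exact congrArg f hab

/-- If all cells are small then the tree can be dropped. -/
lemma drop_tree {d : V → V → ℕ} (hd : IsTree d) (x : V) (C : Finset V)
    (hne : C.Nonempty) (L p : ℕ) (hp : 2 * L ≤ p)
    (hsize : ∀ y ∈ C, (C.filter fun z => d y z < d x y).card * 2 ^ p < C.card)
    (hx : x ∉ C) :
    ∃ Z ⊆ C, 2 ^ L ≤ Z.card ∧ (Set.InjOn (fun y => d x y) Z ∨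
      ∃ h, ∀ y ∈ Z, ∀ z ∈ Z, y ≠ z → d y z = h) := by
  by_cases hD : 2 ^ L ≤ (C.image fun y => d x y).card
  · obtain ⟨Z, hZ, hinj, hcard⟩ := exists_injOn_subset (fun y => d x y) C
    exact ⟨Z, hZ, by rw [hcard]; exact hD, Or.inl hinj⟩
  · push Not at hD
    -- a large class
    obtain ⟨h, hh, hcard⟩ : ∃ h ∈ C.image fun y => d x y,
        C.card ≤ (C.filter fun y => d x y = h).card * 2 ^ L := by
      by_contra hcon
      push Not at hcon
      have h1 : C.card = ∑ h ∈ C.image (fun y => d x y), (C.filter fun y => d x y = h).card :=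
        card_eq_sum_card_image _ _
      have hne2 : (C.image fun y => d x y).Nonempty := hne.image _
      have h2 : (∑ h ∈ C.image (fun y => d x y), (C.filter fun y => d x y = h).card) * 2 ^ L <
          ∑ h ∈ C.image (fun y => d x y), C.card := by
        rw [sum_mul]
        exact sum_lt_sum_of_nonempty hne2 fun h hh => hcon h hh
      rw [← h1, sum_const, smul_eq_mul, mul_comm] at h2
      have h3 := Nat.lt_of_mul_lt_mul_right h2
      omega
    set A := C.filter fun y => d x y = h with hA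
    have hAne : A.Nonempty := by
      rw [mem_image] at hh
      obtain ⟨y, hy, hyh⟩ := hh
      exact ⟨y, mem_filter.2 ⟨hy, hyh⟩⟩
    have hxA : ∀ y ∈ A, x ≠ y := fun y hy he => hx (he ▸ (mem_filter.1 hy).1)
    have hAx : ∀ y ∈ A, d x y = h := fun y hy => (mem_filter.1 hy).2
    obtain ⟨Z, hZ, hcardZ, hind⟩ := indep (fun y z => d y z < d x y) A hAne (2 ^ (p - L))
      (fun y hy => by
        show d y y < d x y
        rw [hd.self]; exact hd.pos _ _ (hxA y hy))
      (fun y hy z hz hr => by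
        show d z y < d x z
        have hr' : d y z < d x y := hr
        rw [hd.symm z y, hAx z hz]
        rwa [hAx y hy] at hr')
      (fun z hz => by
        have h1 := hsize z (mem_filter.1 hz).1
        have h2 : (A.filter fun y => d z y < d x z).card ≤
            (C.filter fun y => d z y < d x z).card :=
          card_le_card (filter_subset_filter _ (filter_subset _ _))
        have h3 : (A.filter fun y => d z y < d x z).card * 2 ^ (p - L) * 2 ^ L ≤
            A.card * 2 ^ L := by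
          calc (A.filter fun y => d z y < d x z).card * 2 ^ (p - L) * 2 ^ L
              = (A.filter fun y => d z y < d x z).card * 2 ^ p := by
                rw [mul_assoc, ← pow_add]; congr 2; omega
            _ ≤ (C.filter fun y => d z y < d x z).card * 2 ^ p := Nat.mul_le_mul_right _ h2
            _ ≤ C.card := h1.le
            _ ≤ A.card * 2 ^ L := hcard
        convert Nat.le_of_mul_le_mul_right h3 (Nat.two_pow_pos L))
    refine ⟨Z, hZ.trans (filter_subset _ _), le_trans ?_ hcardZ, Or.inr ⟨h, ?_⟩⟩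
    · exact Nat.pow_le_pow_right (by norm_num) (by omega)
    · intro y hy z hz hyz
      have h1 := hind y hy z hz hyz
      have h2 := hAx y (hZ hy)
      have h3 := hAx z (hZ hz)
      have h4 := hd.ultra y x z
      rw [hd.symm y x] at h4
      omega

/-- The statement for `k₁` trees, `k₂` binary trees and `t` orders. -/
def Q (V : Type*) (k₁ k₂ t n L : ℕ) : Prop :=
  ∀ (S : Finset V) (T₁ T₂ : Finset (V → V → ℕ)) (F : Finset (V → ℕ)),
    T₁.card ≤ k₁ → T₂.card ≤ k₂ → F.card ≤ t → (∀ d ∈ T₁, IsTree d) →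
    (∀ d ∈ T₂, IsTree d ∧ IsBin d) → (∀ f ∈ F, Set.InjOn f S) → 2 ^ L ≤ S.card →
    ∃ l : List V, l.length = n ∧ l.Nodup ∧ (∀ x ∈ l, x ∈ S) ∧ (∀ d ∈ T₁, GoodT d l) ∧
      (∀ d ∈ T₂, GoodT d l) ∧ (∀ f ∈ F, GoodF f l)

lemma es_list (l : List V) (f : V → ℕ) (hinj : l.Pairwise (fun x y => f x ≠ f y)) (m : ℕ)
    (hm : m * m < l.length) : ∃ u, u <+ l ∧ m < u.length ∧ GoodF f u := by
  have hfinj : Function.Injective (fun i : Fin l.length => f l[i]) := by
    intro i j hij
    by_contra hne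
    rw [List.pairwise_iff_getElem] at hinj
    rcases lt_or_gt_of_ne (fun h => hne (Fin.ext h)) with h | h
    · exact hinj i j i.2 j.2 h hij
    · exact hinj j i j.2 i.2 h hij.symm
  have main : ∀ t : Finset (Fin l.length), m < t.card → ∀ (r : V → V → Prop),
      (∀ i ∈ t, ∀ j ∈ t, i < j → r l[i] l[j]) →
      ∃ u, u <+ l ∧ m < u.length ∧ u.Pairwise r := by
    intro t ht r hr
    refine ⟨(t.sort (· ≤ ·)).map (fun i => l[i]), ?_, ?_, ?_⟩
    · exact List.map_getElem_sublist (Finset.sortedLT_sort t).pairwise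
    · rw [List.length_map, Finset.length_sort]; exact ht
    · rw [List.pairwise_map]
      have h1 := (Finset.sortedLT_sort t).pairwise
      refine (List.pairwise_iff_forall_sublist.2 ?_)
      intro a b hab
      have h2 := List.pairwise_iff_forall_sublist.1 h1 hab
      have ha : a ∈ t.sort (· ≤ ·) := hab.subset (by simp)
      have hb : b ∈ t.sort (· ≤ ·) := hab.subset (by simp)
      rw [Finset.mem_sort] at ha hb
      exact hr a ha b hb h2
  rcases Pool.Agent.R795.Min.erdos_szekeres (r := m) (f := fun i : Fin l.length => f l[i])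
    (by rw [Fintype.card_fin]; exact hm) hfinj with ⟨t, ht, hmon⟩ | ⟨t, ht, hmon⟩
  · obtain ⟨u, hu, hlu, hpu⟩ := main t ht (fun x y => f x < f y)
      (fun i hi j hj hij => hmon hi hj hij)
    exact ⟨u, hu, hlu, Or.inl hpu⟩
  · obtain ⟨u, hu, hlu, hpu⟩ := main t ht (fun x y => f y < f x)
      (fun i hi j hj hij => hmon hi hj hij)
    exact ⟨u, hu, hlu, Or.inr hpu⟩

lemma es_pow (F : Finset (V → ℕ)) : ∀ (l : List V) (a : ℕ),
    (∀ f ∈ F, l.Pairwise (fun x y => f x ≠ f y)) → a ^ 2 ^ F.card ≤ l.length →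
    ∃ u, u <+ l ∧ a ≤ u.length ∧ ∀ f ∈ F, GoodF f u := by
  induction F using Finset.induction_on with
  | empty => intro l a _ h; exact ⟨l, List.Sublist.refl _, by simpa using h, by simp⟩
  | insert f F hf ih =>
    intro l a hF hl
    rcases Nat.eq_zero_or_pos a with rfl | ha
    · exact ⟨[], by simp, by simp, fun g _ => Or.inl (by simp)⟩
    have hb : 0 < a ^ 2 ^ F.card := by positivity
    obtain ⟨u, hu, hlu, hgu⟩ := es_list l f (hF f (mem_insert_self _ _)) (a ^ 2 ^ F.card - 1) (by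
      have h1 : a ^ 2 ^ (insert f F).card = a ^ 2 ^ F.card * a ^ 2 ^ F.card := by
        rw [card_insert_of_notMem hf, pow_succ, pow_mul, sq]
      rw [h1] at hl
      refine lt_of_lt_of_le ?_ hl
      exact Nat.mul_lt_mul'' (by omega) (by omega))
    obtain ⟨v, hv, hlv, hgv⟩ := ih u a
      (fun g hg => (hF g (mem_insert_of_mem hg)).sublist hu) (by omega)
    refine ⟨v, hv.trans hu, hlv, ?_⟩
    intro g hg
    rw [mem_insert] at hg
    rcases hg with rfl | hg
    · exact hgu.sublist hv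
    · exact hgv g hg

/-- No trees: Erdős–Szekeres. -/
lemma Q_zero (t n : ℕ) : Q V 0 0 t n (2 ^ t * Nat.clog 2 n) := by
  intro S T₁ T₂ F h1 h2 hF _ _ hinj hcard
  have hT1 : T₁ = ∅ := card_eq_zero.1 (Nat.le_zero.1 h1)
  have hT2 : T₂ = ∅ := card_eq_zero.1 (Nat.le_zero.1 h2)
  subst hT1 hT2
  obtain ⟨u, hu, hlu, hgu⟩ := es_pow F S.toList n (by
    intro f hf
    refine (List.Nodup.pairwise_of_forall_ne (Finset.nodup_toList S) ?_)
    intro x hx y hy hxy he
    exact hxy (hinj f hf (by simpa using hx) (by simpa using hy) he)) (by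
    rw [Finset.length_toList]
    refine le_trans ?_ hcard
    rcases Nat.lt_or_ge n 1 with hn | hn
    · have : n = 0 := by omega
      subst this
      simp
    calc n ^ 2 ^ F.card ≤ n ^ 2 ^ t :=
          Nat.pow_le_pow_right hn (Nat.pow_le_pow_right (by norm_num) hF)
      _ ≤ (2 ^ Nat.clog 2 n) ^ 2 ^ t := Nat.pow_le_pow_left (Nat.le_pow_clog (by norm_num) n) _
      _ = _ := by rw [← pow_mul, mul_comm])
  have hsub : u.take n <+ S.toList := (List.take_sublist n u).trans hu
  refine ⟨u.take n, by rw [List.length_take]; omega, (Finset.nodup_toList S).sublist hsub, ?_, by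
    simp, by simp, fun f hf => (hgu f hf).sublist (List.take_sublist n u)⟩
  intro x hx
  simpa using hsub.subset hx

/-- A good list of length `n` in `S`. -/
def HasGood (S : Finset V) (T₁ T₂ : Finset (V → V → ℕ)) (F : Finset (V → ℕ)) (n : ℕ) : Prop :=
  ∃ l : List V, l.length = n ∧ l.Nodup ∧ (∀ x ∈ l, x ∈ S) ∧ (∀ d ∈ T₁, GoodT d l) ∧
    (∀ d ∈ T₂, GoodT d l) ∧ (∀ f ∈ F, GoodF f l)

lemma drop_case {k₁ k₂ t n L : ℕ} (hQ : Q V (k₁ - 1) k₂ (t + 1) n L) {S : Finset V}
    {T₁ T₂ : Finset (V → V → ℕ)} {F : Finset (V → ℕ)} (hT1 : T₁.card ≤ k₁) (hT2 : T₂.card ≤ k₂)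
    (hF : F.card ≤ t) (ht1 : ∀ d ∈ T₁, IsTree d) (ht2 : ∀ d ∈ T₂, IsTree d ∧ IsBin d)
    (hinj : ∀ f ∈ F, Set.InjOn f S) {d : V → V → ℕ} (hd : d ∈ T₁) (x : V) {C : Finset V}
    (hCS : C ⊆ S) (hne : C.Nonempty) (hx : x ∉ C) (p : ℕ) (hp : 2 * L ≤ p)
    (hsize : ∀ y ∈ C, (C.filter fun z => d y z < d x y).card * 2 ^ p < C.card) :
    HasGood S T₁ T₂ F n := by
  obtain ⟨Z, hZ, hcard, hcase⟩ := drop_tree (ht1 d hd) x C hne L p hp hsize hx
  have hT1' : (T₁.erase d).card ≤ k₁ - 1 := by
    rw [card_erase_of_mem hd]; omega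
  have hZS : Z ⊆ S := hZ.trans hCS
  rcases hcase with hcase | ⟨h, hcase⟩
  · obtain ⟨l, hl, hnd, hlZ, hg1, hg2, hgF⟩ := hQ Z (T₁.erase d) T₂ (insert (fun y => d x y) F)
      hT1' hT2 ((card_insert_le _ _).trans (by omega)) (fun e he => ht1 e (mem_of_mem_erase he)) ht2
      (by
        intro f hf
        rw [mem_insert] at hf
        rcases hf with rfl | hf
        · exact hcase
        · exact (hinj f hf).mono (by exact_mod_cast hZS)) hcard
    refine ⟨l, hl, hnd, fun y hy => hZS (hlZ y hy), ?_, hg2, fun f hf => hgF f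
      (mem_insert_of_mem hf)⟩
    intro e he
    by_cases hed : e = d
    · subst hed
      exact goodT_of_goodF (ht1 e he) x l (fun y hy hxy => hx (hxy ▸ hZ (hlZ y hy)))
        (hgF _ (mem_insert_self _ _))
    · exact hg1 e (mem_erase.2 ⟨hed, he⟩)
  · obtain ⟨l, hl, hnd, hlZ, hg1, hg2, hgF⟩ := hQ Z (T₁.erase d) T₂ F
      hT1' hT2 (by omega) (fun e he => ht1 e (mem_of_mem_erase he)) ht2
      (fun f hf => (hinj f hf).mono (by exact_mod_cast hZS)) hcard
    refine ⟨l, hl, hnd, fun y hy => hZS (hlZ y hy), ?_, hg2, hgF⟩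
    intro e he
    by_cases hed : e = d
    · subst hed
      refine Or.inr (Or.inr ⟨h, ?_⟩)
      exact List.Nodup.pairwise_of_forall_ne hnd fun y hy z hz hyz =>
        hcase y (hlZ y hy) z (hlZ z hz) hyz
    · exact hg1 e (mem_erase.2 ⟨hed, he⟩)

lemma pair_case {k₁ k₂ t n L : ℕ} (hQ : Q V k₁ (k₂ - 2) (t + 2) n L) {S : Finset V}
    {T₁ T₂ : Finset (V → V → ℕ)} {F : Finset (V → ℕ)} (hT1 : T₁.card ≤ k₁) (hT2 : T₂.card ≤ k₂)
    (hF : F.card ≤ t) (ht1 : ∀ d ∈ T₁, IsTree d) (ht2 : ∀ d ∈ T₂, IsTree d ∧ IsBin d)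
    (hinj : ∀ f ∈ F, Set.InjOn f S) {d d' : V → V → ℕ} (hd : d ∈ T₂) (hd' : d' ∈ T₂)
    (hdd : d' ≠ d) (x x' : V) {Z : Finset V}
    (hZS : Z ⊆ S) (hx : x ∉ Z) (hx' : x' ∉ Z) (h1 : Set.InjOn (fun y => d x y) Z)
    (h2 : Set.InjOn (fun y => d' x' y) Z) (hcard : 2 ^ L ≤ Z.card) :
    HasGood S T₁ T₂ F n := by
  have hT2' : ((T₂.erase d).erase d').card ≤ k₂ - 2 := by
    rw [card_erase_of_mem (mem_erase.2 ⟨hdd, hd'⟩), card_erase_of_mem hd]; omega
  obtain ⟨l, hl, hnd, hlZ, hg1, hg2, hgF⟩ := hQ Z T₁ ((T₂.erase d).erase d')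
    (insert (fun y => d x y) (insert (fun y => d' x' y) F))
    hT1 hT2' ((card_insert_le _ _).trans (by
      have := card_insert_le (fun y => d' x' y) F
      omega)) ht1
    (fun e he => ht2 e (mem_of_mem_erase (mem_of_mem_erase he)))
    (by
      intro f hf
      rw [mem_insert, mem_insert] at hf
      rcases hf with rfl | rfl | hf
      · exact h1
      · exact h2
      · exact (hinj f hf).mono (by exact_mod_cast hZS)) hcard
  refine ⟨l, hl, hnd, fun y hy => hZS (hlZ y hy), hg1, ?_, fun f hf => hgF f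
    (mem_insert_of_mem (mem_insert_of_mem hf))⟩
  intro e he
  by_cases hed : e = d
  · subst hed
    exact goodT_of_goodF (ht2 e he).1 x l (fun y hy hxy => hx (hxy ▸ hlZ y hy))
      (hgF _ (mem_insert_self _ _))
  · by_cases hed' : e = d'
    · subst hed'
      exact goodT_of_goodF (ht2 e he).1 x' l (fun y hy hxy => hx' (hxy ▸ hlZ y hy))
        (hgF _ (mem_insert_of_mem (mem_insert_self _ _)))
    · exact hg2 e (mem_erase.2 ⟨hed', mem_erase.2 ⟨hed, he⟩⟩)

/-- Bits lost in one step. -/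
def stepBits (k L : ℕ) : ℕ :=
  2 + ((2 * L + 2) + 1 + (2 * L + 2) * k) * k + (2 * L + 2) * k

lemma Q_step {k₁ k₂ t n L : ℕ} (h1 : 1 ≤ k₁ → Q V (k₁ - 1) k₂ (t + 1) n L)
    (h2 : 2 ≤ k₂ → Q V k₁ (k₂ - 2) (t + 2) n L) :
    Q V k₁ k₂ t n ((stepBits (k₁ + k₂) L + t) * (2 ^ t * n)) := by
  intro S T₁ T₂ F hT1 hT2 hF ht1 ht2 hinj hcard
  set k := k₁ + k₂ with hk
  set p2 := 2 * L + 2 with hp2
  set p1 := p2 + 1 + p2 * k with hp1
  have hPdef : stepBits k L = 2 + p1 * k + p2 * k := by rw [stepBits]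
  set P := stepBits k L with hP
  set T := T₁ ∪ T₂ with hT
  have hTtree : ∀ d ∈ T, IsTree d := by
    intro d hd
    rw [hT, mem_union] at hd
    rcases hd with hd | hd
    · exact ht1 d hd
    · exact (ht2 d hd).1
  have hTcard : T.card ≤ k := (card_union_le _ _).trans (by omega)
  by_cases hstep : ∀ C ⊆ S, 2 ≤ C.card → ∃ x ∈ C, ∃ C' ⊆ C, x ∉ C' ∧ C.card ≤ 2 ^ P * C'.card ∧
      ∀ d ∈ T, ∀ y ∈ C', ∀ z ∈ C', d y z < d x y
  · obtain ⟨l, hl, hnd, hlS, hfwd, hdir⟩ := greedy S T F hinj P (by omega) hstep (2 ^ t * n) S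
      (Subset.refl _) (le_trans (Nat.pow_le_pow_right (by norm_num)
        (Nat.mul_le_mul_right _ (by omega))) hcard)
    obtain ⟨u, hu, hgu, hlu⟩ := exists_goodF_of_dir_family F l hdir
    have hun : n ≤ u.length := by
      have h3 : 2 ^ F.card * n ≤ 2 ^ F.card * u.length := by
        calc 2 ^ F.card * n ≤ 2 ^ t * n :=
              Nat.mul_le_mul_right _ (Nat.pow_le_pow_right (by norm_num) hF)
          _ ≤ _ := by rw [← hl]; exact hlu
      exact Nat.le_of_mul_le_mul_left h3 (by positivity)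
    have hsub : u.take n <+ l := (List.take_sublist n u).trans hu
    refine ⟨u.take n, by rw [List.length_take]; omega, hnd.sublist hsub,
      fun x hx => hlS x (hsub.subset hx), fun d hd => ?_, fun d hd => ?_,
      fun f hf => (hgu f hf).sublist (List.take_sublist n u)⟩
    · exact Or.inl ((hfwd d (mem_union_left _ hd)).sublist hsub)
    · exact Or.inl ((hfwd d (mem_union_right _ hd)).sublist hsub)
  · have hstep' : ∃ C, C ⊆ S ∧ 2 ≤ C.card ∧ ¬ ∃ x ∈ C, ∃ C' ⊆ C, x ∉ C' ∧
        C.card ≤ 2 ^ P * C'.card ∧ ∀ d ∈ T, ∀ y ∈ C', ∀ z ∈ C', d y z < d x y := by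
      by_contra hcon
      refine hstep fun C hC h2C => ?_
      by_contra hcon2
      exact hcon ⟨C, hC, h2C, hcon2⟩
    obtain ⟨C, hCS, h2C, hfail⟩ := hstep'
    obtain ⟨x, hx⟩ : C.Nonempty := card_pos.1 (by omega)
    obtain ⟨C1, hC1, B1, hB1, hc1, hcell1, hsmall1⟩ := restrict p1 x _ T rfl hTtree (C.erase x)
    have hxC1 : x ∉ C1 := fun h => by simpa using hC1 h
    have hC1C : C1 ⊆ C := hC1.trans (erase_subset _ _)
    have hCC1 : C.card ≤ 2 * 2 ^ (p1 * k) * C1.card := by
      have h3 : C.card ≤ 2 * (C.erase x).card := by rw [card_erase_of_mem hx]; omega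
      calc C.card ≤ 2 * (C.erase x).card := h3
        _ ≤ 2 * (2 ^ (p1 * (T \ B1).card) * C1.card) := Nat.mul_le_mul_left _ hc1
        _ ≤ 2 * (2 ^ (p1 * k) * C1.card) := by
            refine Nat.mul_le_mul_left _ (Nat.mul_le_mul_right _ (Nat.pow_le_pow_right
              (by norm_num) (Nat.mul_le_mul_left _ ?_)))
            exact (card_le_card sdiff_subset).trans hTcard
        _ = _ := by ring
    have hC1ne : C1.Nonempty := by
      rw [nonempty_iff_ne_empty]
      rintro rfl
      rw [card_empty, mul_zero] at hCC1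
      omega
    by_cases hB1e : B1 = ∅
    · exfalso
      subst hB1e
      refine hfail ⟨x, hx, C1, hC1C, hxC1, ?_, by simpa using hcell1⟩
      calc C.card ≤ 2 * 2 ^ (p1 * k) * C1.card := hCC1
        _ ≤ 2 ^ P * C1.card := by
          refine Nat.mul_le_mul_right _ ?_
          rw [← pow_succ']
          exact Nat.pow_le_pow_right (by norm_num) (by omega)
    obtain ⟨d, hdB⟩ := nonempty_iff_ne_empty.2 hB1e
    have hdT : d ∈ T := hB1 hdB
    rw [hT, mem_union] at hdT
    rcases hdT with hd1 | hd2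
    · refine drop_case (h1 ?_) hT1 hT2 hF ht1 ht2 hinj hd1 x (hC1C.trans hCS) hC1ne hxC1 p1
        (by omega) (hsmall1 d hdB)
      have := card_pos.2 ⟨d, hd1⟩
      omega
    -- a binary tree
    have htree := (ht2 d hd2).1
    have hbin := (ht2 d hd2).2
    obtain ⟨x', hx', hmax⟩ := exists_max_image C1 (fun y => d x y) hC1ne
    set C1' := C1.filter (fun y => d x y < d x x') with hC1'
    have hx'C1' : x' ∉ C1' := by simp [hC1']
    have hhalf : C1.card ≤ 2 * C1'.card := by
      have h3 : (C1.filter fun y => d x y < d x x').card +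
          (C1.filter fun y => ¬ d x y < d x x').card = C1.card :=
        card_filter_add_card_filter_not _
      rw [← hC1'] at h3
      have h4 : (C1.filter fun y => ¬ d x y < d x x') ⊆
          (C1.filter fun z => d x' z < d x x') := by
        intro y hy
        rw [mem_filter] at hy ⊢
        refine ⟨hy.1, ?_⟩
        have h5 : d x x' = d x y := le_antisymm (not_lt.1 hy.2) (hmax y hy.1)
        exact htree.lt_of_eq hbin (fun h => hxC1 (h ▸ hx')) (fun h => hxC1 (h ▸ hy.1)) h5
      have h6 := card_le_card h4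
      have h7 := hsmall1 d hdB x' hx'
      have h8 : (C1.filter fun z => d x' z < d x x').card * 2 ≤
          (C1.filter fun z => d x' z < d x x').card * 2 ^ p1 :=
        Nat.mul_le_mul_left _ (by
          calc 2 = 2 ^ 1 := rfl
            _ ≤ 2 ^ p1 := Nat.pow_le_pow_right (by norm_num) (by omega))
      omega
    obtain ⟨C2, hC2, B2, hB2, hc2, hcell2, hsmall2⟩ := restrict p2 x' _ (T.erase d) rfl
      (fun e he => hTtree e (mem_of_mem_erase he)) C1'
    have hx'C2 : x' ∉ C2 := fun h => hx'C1' (hC2 h)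
    have hC2C1 : C2 ⊆ C1 := hC2.trans (filter_subset _ _)
    have hC1C2 : C1.card ≤ 2 * 2 ^ (p2 * k) * C2.card := by
      calc C1.card ≤ 2 * C1'.card := hhalf
        _ ≤ 2 * (2 ^ (p2 * (T.erase d \ B2).card) * C2.card) := Nat.mul_le_mul_left _ hc2
        _ ≤ 2 * (2 ^ (p2 * k) * C2.card) := by
            refine Nat.mul_le_mul_left _ (Nat.mul_le_mul_right _ (Nat.pow_le_pow_right
              (by norm_num) (Nat.mul_le_mul_left _ ?_)))
            exact (card_le_card (sdiff_subset.trans (erase_subset _ _))).trans hTcard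
        _ = _ := by ring
    have hC2ne : C2.Nonempty := by
      rw [nonempty_iff_ne_empty]
      rintro rfl
      have := card_pos.2 hC1ne
      rw [card_empty, mul_zero] at hC1C2
      omega
    by_cases hB2e : B2 = ∅
    · exfalso
      subst hB2e
      refine hfail ⟨x', hC1C hx', C2, hC2C1.trans hC1C, hx'C2, ?_, ?_⟩
      · calc C.card ≤ 2 * 2 ^ (p1 * k) * C1.card := hCC1
          _ ≤ 2 * 2 ^ (p1 * k) * (2 * 2 ^ (p2 * k) * C2.card) := Nat.mul_le_mul_left _ hC1C2
          _ = 2 ^ P * C2.card := by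
            rw [hPdef, pow_add, pow_add]; ring
      · intro e he y hy z hz
        by_cases hed : e = d
        · subst hed
          have hy1 := (mem_filter.1 (hC2 hy)).2
          have hz1 := (mem_filter.1 (hC2 hz)).2
          have h3 := htree.ultra y x z
          rw [htree.symm y x] at h3
          have h4 : e x' y = e x x' := by
            have := htree.eq_of_lt (x := x') (y := x) (z := y) (by rw [htree.symm x' x]; exact hy1)
            rw [this, htree.symm]
          rw [h4]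
          omega
        · exact hcell2 e (by rw [sdiff_empty]; exact mem_erase.2 ⟨hed, he⟩) y hy z hz
    obtain ⟨d', hd'B⟩ := nonempty_iff_ne_empty.2 hB2e
    have hd'T : d' ∈ T.erase d := hB2 hd'B
    have hdd : d' ≠ d := ne_of_mem_erase hd'T
    have hd'T2 : d' ∈ T := mem_of_mem_erase hd'T
    rw [hT, mem_union] at hd'T2
    rcases hd'T2 with hd'1 | hd'2
    · refine drop_case (h1 ?_) hT1 hT2 hF ht1 ht2 hinj hd'1 x' (hC2C1.trans (hC1C.trans hCS))
        hC2ne hx'C2 p2 (by omega) (hsmall2 d' hd'B)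
      have := card_pos.2 ⟨d', hd'1⟩
      omega
    -- two binary trees
    have htree' := (ht2 d' hd'2).1
    have hbin' := (ht2 d' hd'2).2
    have hxC2 : x ∉ C2 := fun h => hxC1 (hC2C1 h)
    obtain ⟨Z, hZ, hcardZ, hind⟩ := indep (fun y z => d x y = d x z ∨ d' x' y = d' x' z) C2 hC2ne
      (2 ^ L) (fun y hy => Or.inl rfl) (fun y hy z hz hr => by
        rcases hr with hr | hr
        · exact Or.inl hr.symm
        · exact Or.inr hr.symm)
      (fun z hz => by
        have h3 : (C2.filter fun y => d x z = d x y ∨ d' x' z = d' x' y).card ≤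
            (C2.filter fun y => d x z = d x y).card +
            (C2.filter fun y => d' x' z = d' x' y).card := by
          rw [filter_or]; exact card_union_le _ _
        have h4 : (C2.filter fun y => d x z = d x y).card * 2 ^ p2 < C2.card := by
          have h5 : (C2.filter fun y => d x z = d x y) ⊆ (C1.filter fun y => d z y < d x z) := by
            intro y hy
            rw [mem_filter] at hy ⊢
            exact ⟨hC2C1 hy.1, htree.lt_of_eq hbin (fun h => hxC2 (h ▸ hz))
              (fun h => hxC2 (h ▸ hy.1)) hy.2⟩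
          have h6 := card_le_card h5
          have h7 := hsmall1 d hdB z (hC2C1 hz)
          have h8 : (C2.filter fun y => d x z = d x y).card * 2 ^ p2 * (2 * 2 ^ (p2 * k)) <
              C2.card * (2 * 2 ^ (p2 * k)) := by
            calc (C2.filter fun y => d x z = d x y).card * 2 ^ p2 * (2 * 2 ^ (p2 * k))
                = (C2.filter fun y => d x z = d x y).card * 2 ^ p1 := by
                  rw [hp1, pow_add, pow_add]; ring
              _ ≤ (C1.filter fun y => d z y < d x z).card * 2 ^ p1 := Nat.mul_le_mul_right _ h6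
              _ < C1.card := h7
              _ ≤ 2 * 2 ^ (p2 * k) * C2.card := hC1C2
              _ = _ := by ring
          exact Nat.lt_of_mul_lt_mul_right h8
        have h9 : (C2.filter fun y => d' x' z = d' x' y).card * 2 ^ p2 < C2.card := by
          have h5 : (C2.filter fun y => d' x' z = d' x' y) ⊆
              (C2.filter fun y => d' z y < d' x' z) := by
            intro y hy
            rw [mem_filter] at hy ⊢
            exact ⟨hy.1, htree'.lt_of_eq hbin' (fun h => hx'C2 (h ▸ hz))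
              (fun h => hx'C2 (h ▸ hy.1)) hy.2⟩
          have h6 := card_le_card h5
          have h7 := hsmall2 d' hd'B z hz
          exact lt_of_le_of_lt (Nat.mul_le_mul_right _ h6) h7
        have h10 : 2 ^ p2 = 4 * 2 ^ (2 * L) := by rw [hp2, pow_add]; ring
        have h11 : (2 : ℕ) ^ L ≤ 2 ^ (2 * L) := Nat.pow_le_pow_right (by norm_num) (by omega)
        have h12 : (C2.filter fun y => d x z = d x y ∨ d' x' z = d' x' y).card * 2 ^ L ≤
            C2.card := by
          have h13 : ((C2.filter fun y => d x z = d x y).card +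
            (C2.filter fun y => d' x' z = d' x' y).card) * (4 * 2 ^ (2 * L)) ≤ 2 * C2.card := by
            rw [← h10, add_mul]; omega
          nlinarith [Nat.mul_le_mul h3 h11]
        convert h12)
    refine pair_case (h2 ?_) hT1 hT2 hF ht1 ht2 hinj hd2 hd'2 hdd x x'
      (hZ.trans (hC2C1.trans (hC1C.trans hCS))) (fun h => hxC2 (hZ h)) (fun h => hx'C2 (hZ h))
      ?_ ?_ hcardZ
    · have h3 : ({d, d'} : Finset (V → V → ℕ)) ⊆ T₂ := by
        intro e he
        rw [mem_insert, mem_singleton] at he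
        rcases he with rfl | rfl
        · exact hd2
        · exact hd'2
      have h4 := card_le_card h3
      rw [card_pair hdd.symm] at h4
      omega
    · intro y hy z hz hyz
      by_contra hne
      exact hind y hy z hz hne (Or.inl hyz)
    · intro y hy z hz hyz
      by_contra hne
      exact hind y hy z hz hne (Or.inr hyz)

lemma Q.mono {k₁ k₂ t n L L' : ℕ} (h : Q V k₁ k₂ t n L) (hL : L ≤ L') : Q V k₁ k₂ t n L' := by
  intro S T₁ T₂ F h1 h2 h3 h4 h5 h6 h7
  exact h S T₁ T₂ F h1 h2 h3 h4 h5 h6 ((Nat.pow_le_pow_right (by norm_num) hL).trans h7)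

/-- The logarithmic factor. -/
def lam (k₂ n : ℕ) : ℕ := if Even k₂ then Nat.clog 2 n else 1

/-- The order of the logarithm of the Ramsey numbers. -/
def ordr (k₁ k₂ n : ℕ) : ℕ := n ^ (k₁ + (k₂ + 1) / 2) * lam k₂ n

lemma lam_pos {k₂ n : ℕ} (hn : 2 ≤ n) : 1 ≤ lam k₂ n := by
  rw [lam]
  split_ifs
  · exact Nat.clog_pos (by norm_num) hn
  · exact le_rfl

lemma stepBits_mul (k C g : ℕ) (hg : 1 ≤ g) : stepBits k (C * g) ≤ stepBits k C * g := by
  rw [stepBits, stepBits]
  have h : ∃ g', g = g' + 1 := ⟨g - 1, by omega⟩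
  obtain ⟨g', rfl⟩ := h
  have : (2 + (2 * C + 2 + 1 + (2 * C + 2) * k) * k + (2 * C + 2) * k) * (g' + 1) =
      (2 + (2 * (C * (g' + 1)) + 2 + 1 + (2 * (C * (g' + 1)) + 2) * k) * k +
        (2 * (C * (g' + 1)) + 2) * k) + g' * (2 + (3 + 2 * k) * k + 2 * k) := by ring
  omega

/-- The constant in the upper bound. -/
def cst (k t : ℕ) : ℕ := 2 ^ (4 * (k + 1) * (k + t + 1))

lemma cst_pos (k t : ℕ) : 1 ≤ cst k t := Nat.one_le_two_pow

lemma succ_sq_le (s : ℕ) : (s + 1) ^ 2 ≤ 4 ^ s := by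
  have h : s + 1 ≤ 2 ^ s := Nat.lt_two_pow_self
  calc (s + 1) ^ 2 ≤ (2 ^ s) ^ 2 := Nat.pow_le_pow_left h 2
    _ = 4 ^ s := by rw [← pow_mul, mul_comm, pow_mul]; norm_num

lemma stepBits_le (k L : ℕ) (hL : 1 ≤ L) : stepBits k L ≤ L * (9 * (k + 1) ^ 2) := by
  rw [stepBits]
  obtain ⟨L', rfl⟩ : ∃ L', L = L' + 1 := ⟨L - 1, by omega⟩
  have : (L' + 1) * (9 * (k + 1) ^ 2) = (2 + (2 * (L' + 1) + 2 + 1 + (2 * (L' + 1) + 2) * k) * k +
      (2 * (L' + 1) + 2) * k) + (7 + 9 * k + 5 * k ^ 2 + L' * (9 + 14 * k + 7 * k ^ 2)) := by ring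
  omega

lemma cst_rec (k t s C : ℕ) (hs : k + t = s) (hC1 : 1 ≤ C) (hC : C ≤ 2 ^ (4 * k * (s + 1))) :
    (stepBits k C + t) * 2 ^ t ≤ cst k t := by
  have h1 := stepBits_le k C hC1
  have h2 : stepBits k C + t ≤ C * (9 * (k + 1) ^ 2 + t) := by
    have : t ≤ C * t := Nat.le_mul_of_pos_left _ hC1
    rw [mul_add]; omega
  have h3 : 9 * (k + 1) ^ 2 + t ≤ 2 ^ (4 + 2 * s) := by
    have h4 := succ_sq_le s
    have h5 : (k + 1) ^ 2 ≤ (s + 1) ^ 2 := Nat.pow_le_pow_left (by omega) 2
    have h6 : t ≤ (s + 1) ^ 2 := by nlinarith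
    have h7 : 2 ^ (4 + 2 * s) = 16 * 4 ^ s := by
      rw [pow_add, pow_mul]; norm_num
    rw [h7]
    omega
  calc (stepBits k C + t) * 2 ^ t ≤ (2 ^ (4 * k * (s + 1)) * 2 ^ (4 + 2 * s)) * 2 ^ s :=
        Nat.mul_le_mul (h2.trans (Nat.mul_le_mul hC h3))
          (Nat.pow_le_pow_right (by norm_num) (by omega))
    _ = 2 ^ (4 * k * (s + 1) + (4 + 2 * s) + s) := by rw [← pow_add, ← pow_add]
    _ ≤ cst k t := by
      rw [cst, hs]
      refine Nat.pow_le_pow_right (by norm_num) ?_
      nlinarith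

lemma Q_all (m : ℕ) : ∀ k₁ k₂ t : ℕ, k₁ + k₂ = m → ∀ (V : Type) (n : ℕ), 2 ≤ n →
    Q V k₁ k₂ t n (cst (k₁ + k₂) t * ordr k₁ k₂ n) := by
  induction m using Nat.strong_induction_on with
  | _ m ih =>
    intro k₁ k₂ t hm V n hn
    by_cases h0 : k₁ = 0 ∧ k₂ = 0
    · obtain ⟨rfl, rfl⟩ := h0
      refine (Q_zero t n).mono ?_
      have h1 : 2 ^ t ≤ cst 0 t := by
        rw [cst]; exact Nat.pow_le_pow_right (by norm_num) (by omega)
      simpa [ordr, lam] using Nat.mul_le_mul_right (Nat.clog 2 n) h1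
    by_cases h01 : k₁ = 0 ∧ k₂ = 1
    · obtain ⟨rfl, rfl⟩ := h01
      refine (Q_step (k₁ := 0) (k₂ := 1) (t := t) (n := n) (L := 0) (fun h => by omega)
        (fun h => by omega)).mono ?_
      have h1 : (stepBits 1 0 + t) * 2 ^ t ≤ cst 1 t := by
        have h2 : stepBits 1 0 ≤ stepBits 1 1 := by decide
        refine le_trans (Nat.mul_le_mul_right _ (Nat.add_le_add_right h2 t))
          (cst_rec 1 t (1 + t) 1 rfl le_rfl Nat.one_le_two_pow)
      have h3 := Nat.mul_le_mul_right n h1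
      simpa [ordr, lam, mul_assoc] using h3
    set s := k₁ + k₂ + t with hs
    set C := 2 ^ (4 * (k₁ + k₂) * (s + 1)) with hC
    have hC1' : 1 ≤ C := Nat.one_le_two_pow
    have hC1 : 1 ≤ k₁ → Q V (k₁ - 1) k₂ (t + 1) n (C * ordr (k₁ - 1) k₂ n) := by
      intro h1
      refine (ih (m - 1) (by omega) (k₁ - 1) k₂ (t + 1) (by omega) V n hn).mono ?_
      refine Nat.mul_le_mul_right _ ?_
      rw [cst, hC]
      refine Nat.pow_le_pow_right (by norm_num) (le_of_eq ?_)
      have e1 : k₁ - 1 + k₂ + 1 = k₁ + k₂ := by omega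
      have e2 : k₁ - 1 + k₂ + (t + 1) + 1 = s + 1 := by omega
      rw [e1, e2]
    have hC2 : 2 ≤ k₂ → Q V k₁ (k₂ - 2) (t + 2) n (C * ordr k₁ (k₂ - 2) n) := by
      intro h2
      refine (ih (m - 2) (by omega) k₁ (k₂ - 2) (t + 2) (by omega) V n hn).mono ?_
      refine Nat.mul_le_mul_right _ ?_
      rw [cst, hC]
      refine Nat.pow_le_pow_right (by norm_num) ?_
      have e1 : k₁ + (k₂ - 2) + (t + 2) + 1 = s + 1 := by omega
      rw [e1]
      exact Nat.mul_le_mul_right _ (Nat.mul_le_mul_left _ (by omega))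
    set g := n ^ (k₁ + (k₂ + 1) / 2 - 1) * lam k₂ n with hg
    have hg1 : 1 ≤ g := Nat.mul_pos (Nat.pow_pos (by omega)) (lam_pos hn)
    have hgn : g * n = ordr k₁ k₂ n := by
      have he : n ^ (k₁ + (k₂ + 1) / 2) = n ^ (k₁ + (k₂ + 1) / 2 - 1) * n := by
        rw [← pow_succ]; congr 1; omega
      rw [ordr, he, hg]
      ring
    have hg1' : 1 ≤ k₁ → ordr (k₁ - 1) k₂ n = g := by
      intro h1
      rw [ordr, hg]
      congr 2
      omega
    have hg2' : 2 ≤ k₂ → ordr k₁ (k₂ - 2) n = g := by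
      intro h2
      have hlam : lam (k₂ - 2) n = lam k₂ n := by
        have : Even (k₂ - 2) ↔ Even k₂ := by
          rw [Nat.even_sub h2]; simp
        simp only [lam, this]
      rw [ordr, hg, hlam]
      congr 2
      omega
    have hstep : Q V k₁ k₂ t n ((stepBits (k₁ + k₂) (C * g) + t) * (2 ^ t * n)) := by
      refine Q_step (fun h1 => ?_) (fun h2 => ?_)
      · have := hC1 h1
        rwa [hg1' h1] at this
      · have := hC2 h2
        rwa [hg2' h2] at this
    refine hstep.mono ?_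
    have h3 := stepBits_mul (k₁ + k₂) C g hg1
    have h4 : t ≤ t * g := Nat.le_mul_of_pos_right _ hg1
    calc (stepBits (k₁ + k₂) (C * g) + t) * (2 ^ t * n)
        ≤ (stepBits (k₁ + k₂) C * g + t * g) * (2 ^ t * n) := Nat.mul_le_mul_right _ (by omega)
      _ = (stepBits (k₁ + k₂) C + t) * 2 ^ t * (g * n) := by ring
      _ ≤ cst (k₁ + k₂) t * (g * n) :=
          Nat.mul_le_mul_right _ (cst_rec (k₁ + k₂) t s C rfl hC1' le_rfl)
      _ = _ := by rw [hgn]

end Pool.Agent.N440.Trees
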